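import Pool.Agent.Lib.HSC43.Group

set_option autoImplicit false

/-! The congruence group acts cocompactly. -/

noncomputable section

namespace Pool.Agent.Lib.HSC43

open Matrix Complex
open scoped ComplexConjugate

theorem om_mem {u v : WA} (hu : ∀ k, u k ∈ RR) (hv : ∀ k, v k ∈ RR) (k : Fin 8) :
    om u v k ∈ RR := by
  let u' : Fin 8 → RR := fun k => ⟨u k, hu k⟩
  let v' : Fin 8 → RR := fun k => ⟨v k, hv k⟩
  have := congrFun (map_om RR.subtype u' v') k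
  exact (show om u v k = _ from this.symm) ▸ (om u' v' k).2

theorem Qf_mem {x y u v : WA} (hx : ∀ k, x k ∈ RR) (hy : ∀ k, y k ∈ RR) (hu : ∀ k, u k ∈ RR)
    (hv : ∀ k, v k ∈ RR) : Qf x y u v ∈ RR := by
  have := map_Qf RR.subtype (fun k => ⟨x k, hx k⟩) (fun k => ⟨y k, hy k⟩) (fun k => ⟨u k, hu k⟩)
    (fun k => ⟨v k, hv k⟩)
  exact (show Qf x y u v = _ from this.symm) ▸ Subtype.prop _

theorem Qf_bound (C : ℝ) : ∃ B : ℝ, ∀ x y u v : WA, ‖x‖ ≤ C → ‖y‖ ≤ C → ‖u‖ ≤ C → ‖v‖ ≤ C →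
    ‖Qf x y u v‖ ≤ B := by
  have hc : Continuous fun p : WA × WA × WA × WA => Qf p.1 p.2.1 p.2.2.1 p.2.2.2 := by
    simp only [Qf, cur, dot8, om0, om1, om2, om3, om4, om5, om6, om7, til0, til1, til2, til3,
      til4, til5, til6, til7]
    fun_prop
  obtain ⟨B, hB⟩ := (isCompact_closedBall (0 : WA × WA × WA × WA) C).exists_bound_of_continuousOn
    hc.continuousOn
  refine ⟨B, fun x y u v h1 h2 h3 h4 => hB (x, y, u, v) ?_⟩
  rw [mem_closedBall_zero_iff]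
  exact norm_prod_le_iff.2 ⟨h1, norm_prod_le_iff.2 ⟨h2, norm_prod_le_iff.2 ⟨h3, h4⟩⟩⟩

theorem norm_io (x : A) : ‖io x‖ = ‖x‖ := by
  change max ‖conj x.1‖ (max ‖x.2.2‖ ‖x.2.1‖) = max ‖x.1‖ (max ‖x.2.1‖ ‖x.2.2‖)
  rw [norm_conj, max_comm ‖x.2.2‖]

theorem norm_le_of_FF {a : W} {u : WA} {C : ℝ} (h : FF a u ≤ C) (k : Fin 8) :
    ‖om (hat a) u k‖ ≤ C + 1 := by
  have h1 : FF a u = _ := crd_sq (om (hat a) u)
  have h2 := nsq_nonneg (p1 ∘ om (hat a) u)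
  have h3 := p2_nonneg (om (hat a) u)
  have h4 := p3_nonneg (om (hat a) u)
  exact norm_A_le (by linarith) (by linarith) (by linarith) k

theorem mulVec_eq (V : MC) (ξ : W) : V *ᵥ ξ = ∑ i, ξ i • V.col i := by
  funext k
  simp [mulVec, dotProduct, mul_comm]

theorem Sq_congr {V V' : MC}
    (h : ∀ i j k l, Sq (V.col i) (V.col k) (V.col j) (V.col l)
      = Sq (V'.col i) (V'.col k) (V'.col j) (V'.col l)) (x u y v : W) :
    Sq (V *ᵥ x) (V *ᵥ u) (V *ᵥ y) (V *ᵥ v) = Sq (V' *ᵥ x) (V' *ᵥ u) (V' *ᵥ y) (V' *ᵥ v) := by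
  unfold Sq at *
  simp only [mulVec_eq, star_sum, star_smul, Qf_sum1, Qf_sum2, Qf_sum3, Qf_sum4, Qf_smul1,
    Qf_smul2, Qf_smul3, Qf_smul4, h]

/-- the quartic invariants of a frame -/
def quart (z : Fin 8 → Ix → ℤ) (i j k l : Fin 8) : A :=
  Qf (ZZ (z i)) (io ∘ ZZ (z j)) (ZZ (z k)) (io ∘ ZZ (z l))

/-- the norm of the determinant of a frame -/
def nz (z : Fin 8 → Ix → ℤ) : ℤ := ⌊nn (UU z).det⌋

theorem det_mem {G : MA} (hG : Int8 G) : G.det ∈ RR := by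
  rw [det_apply']
  exact sum_mem fun σ _ => mul_mem (intCast_mem RR _) (prod_mem fun i _ => hG _ _)

theorem adj_int {G : MA} (hG : Int8 G) : Int8 G.adjugate := fun k l => by
  rw [adjugate_apply]
  refine det_mem fun i j => ?_
  rw [updateRow_apply]
  split_ifs
  · rw [Pi.single_apply]
    split_ifs
    · exact one_mem _
    · exact zero_mem _
  · exact hG i j

theorem nz_spec {z : Fin 8 → Ix → ℤ} (h : LinearIndependent ℂ fun i => p1 ∘ ZZ (z i)) :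
    nn (UU z).det = nz z ∧ (∃ y ∈ RR, (UU z).det * y = nz z) ∧ nz z ≠ 0 := by
  obtain ⟨n, h1, h2, h3⟩ := norm_RR (det_mem (UU_int z))
  have h4 : nz z = n := by rw [nz, h1, Int.floor_intCast]
  rw [h4]
  refine ⟨h1, h2, h3 fun h0 => ?_⟩
  have h5 := ((isUnit_iff_isUnit_det _).1 (UU_unit h)).ne_zero
  apply h5
  have := RingHom.map_det p1 (UU z)
  rw [h0, map_zero] at this
  exact this.symm

theorem UU_add (z w : Fin 8 → Ix → ℤ) (c : ℤ) : UU (z + c • w) = UU z + (c : A) • UU w := by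
  ext k i : 1
  exact (zev_add (fun j => z i (k, j)) (c • fun j => w i (k, j))).trans (by rw [zev_smul]; rfl)

theorem exists_good {m : ℕ} {z z' : Fin 8 → Ix → ℤ}
    (h : LinearIndependent ℂ fun i => p1 ∘ ZZ (z i))
    (h1 : (UU z)ᵀ * UU z = (UU z')ᵀ * UU z') (h2 : quart z = quart z')
    (h3 : ∀ i p, z i p % (m * nz z ^ 2) = z' i p % (m * nz z ^ 2)) :
    ∃ G, Good m G ∧ G * UU z = UU z' := by
  obtain ⟨-, ⟨y, hy, e⟩, hn⟩ := nz_spec h
  choose w hw using fun i p => Int.ModEq.dvd (h3 i p)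
  have h4 : z' = z + ((m : ℤ) * nz z ^ 2) • w := by
    funext i p
    simp only [Pi.add_apply, Pi.smul_apply, smul_eq_mul]
    linarith [hw i p]
  have h5 : (1 + m • (((nz z : A) * y) • (UU w * (UU z).adjugate))) * UU z = UU z' := by
    rw [h4, UU_add, add_mul, one_mul, smul_mul_assoc, smul_mul_assoc, mul_assoc, adjugate_mul,
      mul_smul_comm, mul_one, smul_smul, ← Nat.cast_smul_eq_nsmul A, smul_smul]
    congr 2
    push_cast
    linear_combination (m * nz z : A) * e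
  have hu : IsUnit (UU z) := by
    rw [isUnit_iff_isUnit_det]
    refine isUnit_of_mul_isUnit_left (y := y) ?_
    rw [e]
    have : IsUnit (algebraMap ℝ A (nz z)) := (Ne.isUnit (Int.cast_ne_zero.2 hn)).map _
    rwa [map_intCast] at this
  have hi : Int8 (((nz z : A) * y) • (UU w * (UU z).adjugate)) := fun k l =>
    mul_mem (mul_mem (intCast_mem RR _) hy) ((UU_int w).mul (adj_int (UU_int z)) k l)
  generalize ((nz z : A) * y) • (UU w * (UU z).adjugate) = Δ at h5 hi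
  refine ⟨1 + m • Δ, ⟨⟨Δ, hi, rfl⟩, ?_, fun x u y v => ?_⟩, h5⟩
  · apply hu.mul_right_cancel
    apply ((isUnit_transpose _).2 hu).mul_left_cancel
    rw [one_mul, h1, ← h5, transpose_mul]
    simp only [mul_assoc]
  · have h6 := congrArg (fun M : MA => M.map p1) h5
    simp only [map_mul_p1] at h6
    have hs := mulVec_surjective_iff_isUnit.2 (UU_unit h)
    obtain ⟨x, rfl⟩ := hs x
    obtain ⟨u, rfl⟩ := hs u
    obtain ⟨y, rfl⟩ := hs y
    obtain ⟨v, rfl⟩ := hs v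
    simp only [mulVec_mulVec, h6]
    refine Sq_congr (fun i j k l => ?_) x u y v
    have h7 := congrArg (fun q : Fin 8 → Fin 8 → Fin 8 → Fin 8 → A => p1 (q i j k l)) h2
    simp only [quart, map_Qf] at h7
    exact h7.symm

theorem cocompact {C : ℝ} (m : ℕ) (hm : 0 < m)
    (hC : ∀ a : W, a ⬝ᵥ a = 1 → ∃ z : Fin 8 → Ix → ℤ, (∀ i, FF a (ZZ (z i)) ≤ C) ∧
      LinearIndependent ℂ fun i => p1 ∘ ZZ (z i)) :
    ∃ B : ℝ, ∀ x : W, x ⬝ᵥ x = 1 → ∃ G, Good m G ∧ ‖G.map p1 *ᵥ x‖ ≤ B := by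
  let Z : Set (Fin 8 → Ix → ℤ) := {z | (LinearIndependent ℂ fun i => p1 ∘ ZZ (z i)) ∧
    ∃ a : W, a ⬝ᵥ a = 1 ∧ star a = til a ∧ ∀ i, FF a (ZZ (z i)) ≤ C}
  let dat := fun z : Fin 8 → Ix → ℤ =>
    ((UU z)ᵀ * UU z, quart z, nz z, fun i p => z i p % (m * nz z ^ 2))
  obtain ⟨B, hB⟩ := Qf_bound (|C| + 1)
  have hfin : (dat '' Z).Finite := by
    have f1 : {G : MA | ∀ k l, G k l ∈ {r : A | r ∈ RR ∧ ‖r‖ ≤ B}}.Finite :=
      Set.Finite.pi' fun _ => Set.Finite.pi' fun _ => finite_RR _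
    have f2 : {q : Fin 8 → Fin 8 → Fin 8 → Fin 8 → A |
        ∀ i j k l, q i j k l ∈ {r : A | r ∈ RR ∧ ‖r‖ ≤ B}}.Finite :=
      Set.Finite.pi' fun _ => Set.Finite.pi' fun _ => Set.Finite.pi' fun _ =>
        Set.Finite.pi' fun _ => finite_RR _
    obtain ⟨B2, hB2⟩ := (f1.image fun G => nn G.det).bddAbove
    obtain ⟨N, hN⟩ := exists_nat_ge B2
    have f3 : {r : Fin 8 → Ix → ℤ | ∀ i p, r i p ∈ Set.Icc (0 : ℤ) (m * N)}.Finite :=
      Set.Finite.pi' fun _ => Set.Finite.pi' fun _ => Set.finite_Icc _ _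
    refine (f1.prod (f2.prod ((Set.finite_Icc (-N : ℤ) N).prod f3))).subset ?_
    rintro _ ⟨z, ⟨hl, a, ha, ha', hz⟩, rfl⟩
    have h0 : 0 ≤ |C| + 1 := by positivity
    have h1 : ∀ i, ‖om (hat a) (ZZ (z i))‖ ≤ |C| + 1 := fun i =>
      (pi_norm_le_iff_of_nonneg h0).2 (norm_le_of_FF ((hz i).trans (le_abs_self C)))
    have h2 : ∀ i, ‖om (til (hat a)) (io ∘ ZZ (z i))‖ ≤ |C| + 1 := fun i => by
      rw [← io_hat ha', ← map_om]
      refine (pi_norm_le_iff_of_nonneg h0).2 fun k => ?_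
      rw [Function.comp_apply, norm_io]
      exact norm_le_of_FF ((hz i).trans (le_abs_self C)) k
    have h3 : ‖(e0 : WA)‖ ≤ |C| + 1 := by
      refine (pi_norm_le_iff_of_nonneg h0).2 fun k => ?_
      have := abs_nonneg C
      fin_cases k <;> simp [e0, h0]
    have h4 : ∀ k l, ((UU z)ᵀ * UU z) k l ∈ {r : A | r ∈ RR ∧ ‖r‖ ≤ B} := fun k l => by
      refine ⟨dot_mem (ZZ_mem (z k)) (ZZ_mem (z l)), ?_⟩
      have := hB _ _ _ _ h3 h3 (h1 k) (h1 l)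
      rw [Qf_of_cur cur_e0, om_dot_left, hat_dot ha, one_mul] at this
      exact this
    obtain ⟨e1, -, e2⟩ := nz_spec hl
    have h5 : nz z ^ 2 ≤ N := by
      have := (hB2 ⟨_, h4, rfl⟩).trans hN
      simp only [det_mul, det_transpose, map_mul, e1] at this
      rw [sq]
      exact_mod_cast this
    have h6 : (0 : ℤ) < m * nz z ^ 2 := by positivity
    refine ⟨h4, fun i j k l => ⟨Qf_mem (ZZ_mem _) (fun _ => io_mem (ZZ_mem _ _)) (ZZ_mem _)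
      fun _ => io_mem (ZZ_mem _ _), ?_⟩, ⟨by nlinarith, by nlinarith⟩,
      fun i p => ⟨Int.emod_nonneg _ h6.ne', (Int.emod_lt_of_pos _ h6).le.trans (by gcongr)⟩⟩
    have := hB _ _ _ _ (h1 i) (h2 j) (h1 k) (h2 l)
    rw [Qf_om, hat_dot ha, one_pow, one_mul] at this
    exact this
  let b := fun z : Fin 8 → Ix → ℤ => ∑ i, ‖(((UU z).map p1)⁻¹ *ᵥ (e0 : W)) i‖ * (|C| + 1)
  obtain ⟨B3, hB3⟩ := (hfin.image fun δ => b (Function.invFunOn dat Z δ)).bddAbove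
  refine ⟨8 * B3 ^ 2 + 1, fun x hx => ?_⟩
  obtain ⟨a, ha, ha1, ha2⟩ := blk_BOOST x hx
  obtain ⟨z, hz, hl⟩ := hC a ha
  have hZ : z ∈ Z := ⟨hl, a, ha, ha1, hz⟩
  have h1 : b (Function.invFunOn dat Z (dat z)) ≤ B3 := hB3 ⟨dat z, ⟨z, hZ, rfl⟩, rfl⟩
  have h2 := Function.invFunOn_mem (f := dat) ⟨z, hZ, rfl⟩
  have h3 := Function.invFunOn_eq (f := dat) ⟨z, hZ, rfl⟩
  generalize Function.invFunOn dat Z (dat z) = z' at h1 h2 h3
  obtain ⟨e1, e2, e3, e4⟩ : (UU z')ᵀ * UU z' = (UU z)ᵀ * UU z ∧ quart z' = quart z ∧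
      nz z' = nz z ∧ (fun i p => z' i p % (m * nz z' ^ 2)) = fun i p => z i p % (m * nz z ^ 2) := by
    simpa only [dat, Prod.mk.injEq] using h3
  rw [e3] at e4
  obtain ⟨G, hG, e⟩ := exists_good (m := m) hl e1.symm e2.symm
    fun i p => (congrFun (congrFun e4 i) p).symm
  refine ⟨G, hG, ?_⟩
  obtain ⟨a', ha', -, ha3⟩ := blk_BOOST (G.map p1 *ᵥ x) (by rw [dot_orth hG.orth1, hx])
  have h4 : ∀ i, ‖om a' (((UU z').map p1).col i)‖ ≤ |C| + 1 := fun i => by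
    have h5 : ((UU z').map p1).col i = G.map p1 *ᵥ (p1 ∘ ZZ (z i)) := by
      rw [← map_mulVec_p1, ← e]; rfl
    refine (pi_norm_le_iff_of_nonneg (by positivity)).2 fun k =>
      le_of_sq_le ((le_nsq _ k).trans ?_)
    have h6 := FF_eq ha (ZZ (z i))
    rw [h5, nsq_inv hG ha2 ha3]
    linarith [p2_nonneg (ZZ (z i)), p3_nonneg (ZZ (z i)), hz i, le_abs_self C]
  have h7 : ‖a'‖ ≤ B3 := by
    have h8 : (UU z').map p1 *ᵥ (((UU z').map p1)⁻¹ *ᵥ (e0 : W)) = e0 := by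
      rw [mulVec_mulVec, mul_nonsing_inv _ ((isUnit_iff_isUnit_det _).1 (UU_unit h2.1)),
        one_mulVec]
    rw [← om_e0' a', ← h8, mulVec_eq, ← omL_apply, map_sum]
    refine (norm_sum_le _ _).trans ((Finset.sum_le_sum fun i _ => ?_).trans h1)
    rw [map_smul, norm_smul]
    exact mul_le_mul_of_nonneg_left (h4 i) (norm_nonneg _)
  refine (pi_norm_le_iff_of_nonneg (by positivity)).2 fun k =>
    le_of_sq_le ((le_nsq _ k).trans ?_)
  rw [← nsq_boost ha3]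
  exact (nsq_le _).trans (by gcongr)

theorem blk_ARITH : St_ARITH := by
  obtain ⟨C, hC⟩ := exists_frame
  obtain ⟨n, hn⟩ := exists_nat_ge (4 * C)
  have hm : 4 * C < ((n + 1 : ℕ) : ℝ) ^ 2 := by
    push_cast
    nlinarith [(Nat.cast_nonneg n : (0 : ℝ) ≤ n)]
  have hC' := fun a ha => hC a ha 8 le_rfl
  refine ⟨Gam (n + 1), ?_, ?_, ?_, proper _, ?_⟩
  · rintro γ ⟨G, hG, e⟩ x y
    rw [← e, dot_orth hG.orth1]
  · rintro γ ⟨G, hG, e⟩ x u y v
    rw [← e, hG.quart]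
  · rintro γ ⟨G, hG, e⟩ x hx h
    rw [← e] at h
    exact Units.ext (e.symm.trans (free hm hC' hG hx h))
  · obtain ⟨B, hB⟩ := cocompact (n + 1) n.succ_pos hC'
    refine ⟨B, fun x hx => ?_⟩
    obtain ⟨G, hG, h⟩ := hB x hx
    exact ⟨⟨G.map p1, (G.map p1)ᵀ, hG.orth1', hG.orth1⟩, ⟨G, hG, rfl⟩, h⟩

end Pool.Agent.Lib.HSC43
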