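import Mathlib

set_option autoImplicit false

/-! Octonions over a commutative ring and the quartic form used for the metric. -/

namespace Pool.Agent.Lib.HSC43

open Matrix

variable {R : Type} [CommRing R]

/-- octonion product (Cayley-Dickson) -/
def om (x y : Fin 8 → R) : Fin 8 → R :=
  ![x 0 * y 0 - x 1 * y 1 - x 2 * y 2 - x 3 * y 3 - x 4 * y 4 - x 5 * y 5 - x 6 * y 6 - x 7 * y 7,
    x 0 * y 1 + x 1 * y 0 + x 2 * y 3 - x 3 * y 2 + x 4 * y 5 - x 5 * y 4 - x 6 * y 7 + x 7 * y 6,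
    x 0 * y 2 - x 1 * y 3 + x 2 * y 0 + x 3 * y 1 + x 4 * y 6 + x 5 * y 7 - x 6 * y 4 - x 7 * y 5,
    x 0 * y 3 + x 1 * y 2 - x 2 * y 1 + x 3 * y 0 + x 4 * y 7 - x 5 * y 6 + x 6 * y 5 - x 7 * y 4,
    x 0 * y 4 - x 1 * y 5 - x 2 * y 6 - x 3 * y 7 + x 4 * y 0 + x 5 * y 1 + x 6 * y 2 + x 7 * y 3,
    x 0 * y 5 + x 1 * y 4 - x 2 * y 7 + x 3 * y 6 - x 4 * y 1 + x 5 * y 0 - x 6 * y 3 + x 7 * y 2,
    x 0 * y 6 + x 1 * y 7 + x 2 * y 4 - x 3 * y 5 - x 4 * y 2 + x 5 * y 3 + x 6 * y 0 - x 7 * y 1,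
    x 0 * y 7 - x 1 * y 6 + x 2 * y 5 + x 3 * y 4 - x 4 * y 3 - x 5 * y 2 + x 6 * y 1 + x 7 * y 0]

/-- octonion conjugation -/
def til (x : Fin 8 → R) : Fin 8 → R := ![x 0, -x 1, -x 2, -x 3, -x 4, -x 5, -x 6, -x 7]

/-- the unit octonion -/
def e0 : Fin 8 → R := ![1, 0, 0, 0, 0, 0, 0, 0]

/-- the current `x * conj y` -/
def cur (x y : Fin 8 → R) : Fin 8 → R := om x (til y)

/-- the quartic form -/
def Qf (x y u v : Fin 8 → R) : R := cur x y ⬝ᵥ cur u v

theorem dot8 (x y : Fin 8 → R) : x ⬝ᵥ y = x 0 * y 0 + x 1 * y 1 + x 2 * y 2 + x 3 * y 3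
    + x 4 * y 4 + x 5 * y 5 + x 6 * y 6 + x 7 * y 7 := by
  simp [dotProduct, Fin.sum_univ_eight]

omit [CommRing R] in
theorem ext8 {x y : Fin 8 → R} (h0 : x 0 = y 0) (h1 : x 1 = y 1) (h2 : x 2 = y 2)
    (h3 : x 3 = y 3) (h4 : x 4 = y 4) (h5 : x 5 = y 5) (h6 : x 6 = y 6) (h7 : x 7 = y 7) :
    x = y := by
  funext i
  fin_cases i <;> assumption

section comps

variable (x y : Fin 8 → R)

theorem om0 : om x y 0 = x 0 * y 0 - x 1 * y 1 - x 2 * y 2 - x 3 * y 3 - x 4 * y 4 - x 5 * y 5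
    - x 6 * y 6 - x 7 * y 7 := rfl
theorem om1 : om x y 1 = x 0 * y 1 + x 1 * y 0 + x 2 * y 3 - x 3 * y 2 + x 4 * y 5 - x 5 * y 4
    - x 6 * y 7 + x 7 * y 6 := rfl
theorem om2 : om x y 2 = x 0 * y 2 - x 1 * y 3 + x 2 * y 0 + x 3 * y 1 + x 4 * y 6 + x 5 * y 7
    - x 6 * y 4 - x 7 * y 5 := rfl
theorem om3 : om x y 3 = x 0 * y 3 + x 1 * y 2 - x 2 * y 1 + x 3 * y 0 + x 4 * y 7 - x 5 * y 6
    + x 6 * y 5 - x 7 * y 4 := rfl
theorem om4 : om x y 4 = x 0 * y 4 - x 1 * y 5 - x 2 * y 6 - x 3 * y 7 + x 4 * y 0 + x 5 * y 1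
    + x 6 * y 2 + x 7 * y 3 := rfl
theorem om5 : om x y 5 = x 0 * y 5 + x 1 * y 4 - x 2 * y 7 + x 3 * y 6 - x 4 * y 1 + x 5 * y 0
    - x 6 * y 3 + x 7 * y 2 := rfl
theorem om6 : om x y 6 = x 0 * y 6 + x 1 * y 7 + x 2 * y 4 - x 3 * y 5 - x 4 * y 2 + x 5 * y 3
    + x 6 * y 0 - x 7 * y 1 := rfl
theorem om7 : om x y 7 = x 0 * y 7 - x 1 * y 6 + x 2 * y 5 + x 3 * y 4 - x 4 * y 3 - x 5 * y 2
    + x 6 * y 1 + x 7 * y 0 := rfl
theorem til0 : til x 0 = x 0 := rfl
theorem til1 : til x 1 = -x 1 := rfl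
theorem til2 : til x 2 = -x 2 := rfl
theorem til3 : til x 3 = -x 3 := rfl
theorem til4 : til x 4 = -x 4 := rfl
theorem til5 : til x 5 = -x 5 := rfl
theorem til6 : til x 6 = -x 6 := rfl
theorem til7 : til x 7 = -x 7 := rfl
theorem e00 : (e0 : Fin 8 → R) 0 = 1 := rfl
theorem e01 : (e0 : Fin 8 → R) 1 = 0 := rfl
theorem e02 : (e0 : Fin 8 → R) 2 = 0 := rfl
theorem e03 : (e0 : Fin 8 → R) 3 = 0 := rfl
theorem e04 : (e0 : Fin 8 → R) 4 = 0 := rfl
theorem e05 : (e0 : Fin 8 → R) 5 = 0 := rfl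
theorem e06 : (e0 : Fin 8 → R) 6 = 0 := rfl
theorem e07 : (e0 : Fin 8 → R) 7 = 0 := rfl

end comps

theorem om_add_left (x x' y : Fin 8 → R) : om (x + x') y = om x y + om x' y := by
  apply ext8 <;> simp only [om0, om1, om2, om3, om4, om5, om6, om7, Pi.add_apply] <;> ring

theorem om_add_right (x y y' : Fin 8 → R) : om x (y + y') = om x y + om x y' := by
  apply ext8 <;> simp only [om0, om1, om2, om3, om4, om5, om6, om7, Pi.add_apply] <;> ring

theorem om_smul_left (c : R) (x y : Fin 8 → R) : om (c • x) y = c • om x y := by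
  apply ext8 <;>
    simp only [om0, om1, om2, om3, om4, om5, om6, om7, Pi.smul_apply, smul_eq_mul] <;> ring

theorem om_smul_right (c : R) (x y : Fin 8 → R) : om x (c • y) = c • om x y := by
  apply ext8 <;>
    simp only [om0, om1, om2, om3, om4, om5, om6, om7, Pi.smul_apply, smul_eq_mul] <;> ring

theorem til_add (x y : Fin 8 → R) : til (x + y) = til x + til y := by
  apply ext8 <;> simp only [til0, til1, til2, til3, til4, til5, til6, til7, Pi.add_apply] <;> ring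

theorem til_smul (c : R) (x : Fin 8 → R) : til (c • x) = c • til x := by
  apply ext8 <;>
    simp only [til0, til1, til2, til3, til4, til5, til6, til7, Pi.smul_apply, smul_eq_mul] <;> ring

theorem til_til (x : Fin 8 → R) : til (til x) = x := by
  apply ext8 <;> simp only [til0, til1, til2, til3, til4, til5, til6, til7, neg_neg]

theorem til_e0 : til (e0 : Fin 8 → R) = e0 := by
  apply ext8 <;> simp only [til0, til1, til2, til3, til4, til5, til6, til7, e00, e01, e02, e03,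
    e04, e05, e06, e07, neg_zero]

theorem om_e0 (x : Fin 8 → R) : om e0 x = x := by
  apply ext8 <;> simp only [om0, om1, om2, om3, om4, om5, om6, om7, e00, e01, e02, e03,
    e04, e05, e06, e07] <;> ring

theorem e0_dot (x : Fin 8 → R) : e0 ⬝ᵥ x = x 0 := by
  simp only [dot8, e00, e01, e02, e03, e04, e05, e06, e07]; ring

/-- the octonion product as a bilinear map -/
def omL : (Fin 8 → R) →ₗ[R] (Fin 8 → R) →ₗ[R] (Fin 8 → R) :=
  LinearMap.mk₂ R om om_add_left om_smul_left om_add_right om_smul_right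

/-- the current as a bilinear map -/
def curL : (Fin 8 → R) →ₗ[R] (Fin 8 → R) →ₗ[R] (Fin 8 → R) :=
  LinearMap.mk₂ R cur (fun _ _ _ => om_add_left _ _ _) (fun _ _ _ => om_smul_left _ _ _)
    (fun _ _ _ => by simp only [cur, til_add, om_add_right])
    (fun _ _ _ => by simp only [cur, til_smul, om_smul_right])

theorem omL_apply (x y : Fin 8 → R) : omL x y = om x y := rfl

theorem curL_apply (x y : Fin 8 → R) : curL x y = cur x y := rfl

theorem om_dot_left (a x y : Fin 8 → R) : om a x ⬝ᵥ om a y = (a ⬝ᵥ a) * (x ⬝ᵥ y) := by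
  simp only [dot8, om0, om1, om2, om3, om4, om5, om6, om7]; ring

theorem om_dot_right (a x y : Fin 8 → R) : om x a ⬝ᵥ om y a = (a ⬝ᵥ a) * (x ⬝ᵥ y) := by
  simp only [dot8, om0, om1, om2, om3, om4, om5, om6, om7]; ring

theorem om_til_om (a x : Fin 8 → R) : om (til a) (om a x) = (a ⬝ᵥ a) • x := by
  apply ext8 <;> simp only [dot8, om0, om1, om2, om3, om4, om5, om6, om7, til0, til1, til2, til3,
    til4, til5, til6, til7, Pi.smul_apply, smul_eq_mul] <;> ring

theorem til_dot (x y : Fin 8 → R) : til x ⬝ᵥ til y = x ⬝ᵥ y := by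
  simp only [dot8, til0, til1, til2, til3, til4, til5, til6, til7]; ring

theorem til_cur (x y : Fin 8 → R) : til (cur x y) = cur y x := by
  apply ext8 <;> simp only [cur, om0, om1, om2, om3, om4, om5, om6, om7, til0, til1, til2, til3,
    til4, til5, til6, til7] <;> ring

theorem cur_zero (x y : Fin 8 → R) : cur x y 0 = x ⬝ᵥ y := by
  simp only [cur, dot8, om0, til0, til1, til2, til3, til4, til5, til6, til7]; ring

/-- Moufang identity -/
theorem cur_moufang (a x y : Fin 8 → R) :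
    cur (om a x) (om (til a) y) = om a (om (cur x y) a) := by
  apply ext8 <;> simp only [cur, om0, om1, om2, om3, om4, om5, om6, om7, til0, til1, til2, til3,
    til4, til5, til6, til7] <;> ring

theorem Qf_om (a x y u v : Fin 8 → R) :
    Qf (om a x) (om (til a) y) (om a u) (om (til a) v) = (a ⬝ᵥ a) ^ 2 * Qf x y u v := by
  simp only [Qf, cur_moufang, om_dot_left, om_dot_right]; ring

theorem Qf_swap (x y u v : Fin 8 → R) : Qf x y u v = Qf y x v u := by
  rw [Qf, Qf, ← til_dot, til_cur, til_cur]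

theorem Qf_symm (x y u v : Fin 8 → R) : Qf x y u v = Qf u v x y := dotProduct_comm _ _

theorem Qf_diag_left (x y v : Fin 8 → R) : Qf x y x v = (x ⬝ᵥ x) * (y ⬝ᵥ v) := by
  rw [Qf, cur, cur, om_dot_left, til_dot]

theorem Qf_diag_right (x u y : Fin 8 → R) : Qf x y u y = (x ⬝ᵥ u) * (y ⬝ᵥ y) := by
  rw [Qf, cur, cur, om_dot_right, til_dot, mul_comm]

theorem Qf_of_cur {x y : Fin 8 → R} (h : cur x y = e0) (u v : Fin 8 → R) :
    Qf x y u v = u ⬝ᵥ v := by
  rw [Qf, h, e0_dot, cur_zero]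

theorem cur_e0 : cur (e0 : Fin 8 → R) e0 = e0 := by rw [cur, til_e0, om_e0]

theorem boost_id (t : Fin 8 → R) :
    om (til t + e0) (om t (til t + e0)) = (t ⬝ᵥ t) • til t + t + (2 * (t ⬝ᵥ t)) • e0 := by
  apply ext8 <;> simp only [dot8, om0, om1, om2, om3, om4, om5, om6, om7, til0, til1, til2, til3,
    til4, til5, til6, til7, Pi.smul_apply, smul_eq_mul, Pi.add_apply, e00, e01, e02, e03,
    e04, e05, e06, e07] <;> ring

theorem add_til (t : Fin 8 → R) : til t + t = (2 * t 0) • e0 := by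
  apply ext8 <;> simp only [til0, til1, til2, til3,
    til4, til5, til6, til7, Pi.smul_apply, smul_eq_mul, Pi.add_apply, e00, e01, e02, e03,
    e04, e05, e06, e07] <;> ring

section hom

variable {S : Type} [CommRing S] (f : R →+* S)

theorem map_om (x y : Fin 8 → R) : f ∘ om x y = om (f ∘ x) (f ∘ y) := by
  apply ext8 <;> simp only [Function.comp_apply, om0, om1, om2, om3, om4, om5, om6, om7, map_add,
    map_sub, map_mul]

theorem map_til (x : Fin 8 → R) : f ∘ til x = til (f ∘ x) := by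
  apply ext8 <;> simp only [Function.comp_apply, til0, til1, til2, til3, til4, til5, til6, til7,
    map_neg]

theorem map_e0 : f ∘ (e0 : Fin 8 → R) = e0 := by
  apply ext8 <;> simp only [Function.comp_apply, e00, e01, e02, e03, e04, e05, e06, e07, map_one,
    map_zero]

theorem map_dot (x y : Fin 8 → R) : f (x ⬝ᵥ y) = (f ∘ x) ⬝ᵥ (f ∘ y) := by
  simp only [dot8, map_add, map_mul, Function.comp_apply]

theorem map_cur (x y : Fin 8 → R) : f ∘ cur x y = cur (f ∘ x) (f ∘ y) := by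
  rw [cur, cur, map_om, map_til]

theorem map_Qf (x y u v : Fin 8 → R) :
    f (Qf x y u v) = Qf (f ∘ x) (f ∘ y) (f ∘ u) (f ∘ v) := by
  rw [Qf, Qf, map_dot, map_cur, map_cur]

end hom

section lin

variable (x x' y y' u u' v v' : Fin 8 → R) (c : R)

theorem Qf_add1 : Qf (x + x') y u v = Qf x y u v + Qf x' y u v := by
  simp only [Qf, ← curL_apply, map_add, LinearMap.add_apply, add_dotProduct]
theorem Qf_add2 : Qf x (y + y') u v = Qf x y u v + Qf x y' u v := by
  simp only [Qf, ← curL_apply, map_add, add_dotProduct]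
theorem Qf_add3 : Qf x y (u + u') v = Qf x y u v + Qf x y u' v := by
  simp only [Qf, ← curL_apply, map_add, LinearMap.add_apply, dotProduct_add]
theorem Qf_add4 : Qf x y u (v + v') = Qf x y u v + Qf x y u v' := by
  simp only [Qf, ← curL_apply, map_add, dotProduct_add]
theorem Qf_smul1 : Qf (c • x) y u v = c * Qf x y u v := by
  simp only [Qf, ← curL_apply, map_smul, LinearMap.smul_apply, smul_dotProduct, smul_eq_mul]
theorem Qf_smul2 : Qf x (c • y) u v = c * Qf x y u v := by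
  simp only [Qf, ← curL_apply, map_smul, smul_dotProduct, smul_eq_mul]
theorem Qf_smul3 : Qf x y (c • u) v = c * Qf x y u v := by
  simp only [Qf, ← curL_apply, map_smul, LinearMap.smul_apply, dotProduct_smul, smul_eq_mul]
theorem Qf_smul4 : Qf x y u (c • v) = c * Qf x y u v := by
  simp only [Qf, ← curL_apply, map_smul, dotProduct_smul, smul_eq_mul]

variable {ι : Type} (s : Finset ι) (w : ι → Fin 8 → R)

theorem Qf_sum1 : Qf (∑ i ∈ s, w i) y u v = ∑ i ∈ s, Qf (w i) y u v := by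
  simp only [Qf, ← curL_apply, map_sum, LinearMap.sum_apply, sum_dotProduct]
theorem Qf_sum2 : Qf x (∑ i ∈ s, w i) u v = ∑ i ∈ s, Qf x (w i) u v := by
  simp only [Qf, ← curL_apply, map_sum, sum_dotProduct]
theorem Qf_sum3 : Qf x y (∑ i ∈ s, w i) v = ∑ i ∈ s, Qf x y (w i) v := by
  simp only [Qf, ← curL_apply, map_sum, LinearMap.sum_apply, dotProduct_sum]
theorem Qf_sum4 : Qf x y u (∑ i ∈ s, w i) = ∑ i ∈ s, Qf x y u (w i) := by
  simp only [Qf, ← curL_apply, map_sum, dotProduct_sum]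

end lin

end Pool.Agent.Lib.HSC43
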