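import Pool.Agent.Lib.HSC43.Blue

set_option autoImplicit false

noncomputable section

namespace Pool.Agent.Lib.HSC43

open Matrix
open scoped ComplexConjugate

theorem star_eq_comp (x : W) : star x = (starRingEnd ℂ) ∘ x := rfl

theorem star_om (x y : W) : star (om x y) = om (star x) (star y) := map_om (starRingEnd ℂ) x y

theorem star_til (x : W) : star (til x) = til (star x) := map_til (starRingEnd ℂ) x

theorem star_e0 : star (e0 : W) = e0 := map_e0 (starRingEnd ℂ)

theorem star_cur (x y : W) : star (cur x y) = cur (star x) (star y) := map_cur (starRingEnd ℂ) x y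

theorem conj_dot (x y : W) : conj (x ⬝ᵥ y) = star x ⬝ᵥ star y := map_dot (starRingEnd ℂ) x y

theorem dot_star_eq (x : W) : x ⬝ᵥ star x = ((∑ k, ‖x k‖ ^ 2 : ℝ) : ℂ) := by
  simp only [dotProduct, Pi.star_apply, Complex.ofReal_sum, Complex.ofReal_pow]
  exact Finset.sum_congr rfl fun k _ => Complex.mul_conj' (x k)

theorem blk_BOOST : St_BOOST := by
  intro x hx
  set τ := cur x (star x) with hτ
  have h1 : star τ = til τ := by rw [hτ, star_cur, star_star, til_cur]
  have h2 : τ ⬝ᵥ τ = 1 := by
    have := Qf_diag_left x (star x) (star x)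
    rw [← conj_dot, hx, map_one, mul_one] at this
    exact this
  set t : ℝ := ∑ k, ‖x k‖ ^ 2 with ht
  have ht0 : 0 ≤ t := Finset.sum_nonneg fun k _ => by positivity
  have h3 : τ 0 = t := by rw [hτ, cur_zero, dot_star_eq]
  set c : ℝ := (Real.sqrt (2 * (1 + t)))⁻¹ with hc
  have hc2 : c ^ 2 * (2 * (1 + t)) = 1 := by
    rw [hc, inv_pow, Real.sq_sqrt (by positivity)]
    exact inv_mul_cancel₀ (by positivity)
  have hc3 : (c : ℂ) ^ 2 * (2 * (1 + t)) = 1 := by exact_mod_cast hc2
  have ha : ((c : ℂ) • (til τ + e0)) ⬝ᵥ ((c : ℂ) • (til τ + e0)) = 1 := by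
    rw [smul_dotProduct, dotProduct_smul, add_dotProduct, dotProduct_add, til_dot, h2,
      dotProduct_comm (til τ) e0, e0_dot, e0_dot, Pi.add_apply, til0, h3, e00]
    simp only [smul_eq_mul]
    linear_combination hc3
  have hs : star ((c : ℂ) • (til τ + e0)) = til ((c : ℂ) • (til τ + e0)) := by
    rw [star_smul, star_add, star_til, h1, star_e0, til_smul, til_add, til_e0]
    simp
  refine ⟨(c : ℂ) • (til τ + e0), ha, hs, fun u v => ?_⟩
  have h4 := Qf_om ((c : ℂ) • (til τ + e0)) x (star x) u (star v)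
  rw [ha, one_pow, one_mul] at h4
  rw [Sq, ← h4, star_om, hs]
  apply Qf_of_cur
  rw [cur_moufang, ← hτ, om_smul_left, om_smul_right, om_smul_right, boost_id, h2, one_smul,
    add_til, h3, ← add_smul, smul_smul, smul_smul]
  convert one_smul ℂ (e0 : W) using 2
  linear_combination hc3

end Pool.Agent.Lib.HSC43
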