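import Pool.Agent.Lib.HSC43.Alg
import Pool.Agent.Lib.MP_40b2af_gt.Defs

set_option autoImplicit false

/-! Definitions and block statements for the compact quotient of the complex 7-sphere. -/

noncomputable section

namespace Pool.Agent.Lib.HSC43

open Matrix Pool.Agent.Lib.MP_40b2af_gt
open scoped Manifold ContDiff Topology ComplexConjugate

/-- complex octonions -/
abbrev W : Type := Fin 8 → ℂ

/-- the quartic form, linear in `x, u` and conjugate linear in `y, v` -/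
def Sq (x u y v : W) : ℂ := Qf x (star y) u (star v)

/-- stereographic parametrisation of the quadric, `s = 1` or `s = -1` -/
def stP (s : ℂ) (z : V 7) : W :=
  (1 + z ⬝ᵥ z)⁻¹ • (Fin.cons (s * (1 - z ⬝ᵥ z)) ((2 : ℂ) • z) : Fin (7 + 1) → ℂ)

/-- stereographic projection -/
def stC (s : ℂ) (x : W) : V 7 := (1 + s * x 0)⁻¹ • (Fin.tail (n := 7) x : V 7)

/-- complex differential of the parametrisation -/
def dP (s : ℂ) (z : V 7) : V 7 →L[ℂ] W := fderiv ℂ (stP s) z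

/-- coefficients of the Hermitian metric in the stereographic chart -/
def hS (s : ℂ) : Her 7 := fun z => Matrix.of fun k l =>
  Sq (stP s z) (dP s z (Pi.single k 1)) (stP s z) (dP s z (Pi.single l 1))

/-- a boost turns the metric at `x` into the standard Hermitian form -/
def St_BOOST : Prop :=
  ∀ x : W, x ⬝ᵥ x = 1 → ∃ a : W, a ⬝ᵥ a = 1 ∧ star a = til a ∧
    ∀ u v : W, Sq x u x v = om a u ⬝ᵥ star (om a v)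

def St_STEREO : Prop :=
  ∀ s : ℂ, s * s = 1 →
    (∀ z : V 7, 1 + z ⬝ᵥ z ≠ 0 →
      stP s z ⬝ᵥ stP s z = 1 ∧ 1 + s * stP s z 0 ≠ 0 ∧ stC s (stP s z) = z ∧
      ContDiffAt ℂ ω (stP s) z ∧ Function.Injective (dP s z) ∧
      ∀ w : W, w ⬝ᵥ stP s z = 0 → ∃ v : V 7, dP s z v = w) ∧
    ∀ x : W, 1 + s * x 0 ≠ 0 → ContDiffAt ℂ ω (stC s) x ∧
      (x ⬝ᵥ x = 1 → 1 + stC s x ⬝ᵥ stC s x ≠ 0 ∧ stP s (stC s x) = x)

def St_CONN : Prop := IsConnected {x : W | x ⬝ᵥ x = 1}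

def St_CURV : Prop :=
  ∀ s : ℂ, s * s = 1 → ∀ z : V 7, 1 + z ⬝ᵥ z ≠ 0 → ∀ X : V 7,
    ∑ i, ∑ j, ∑ k, ∑ l, chern (hS s) z i j k l * X i * conj (X j) * X k * conj (X l) = 0

def St_NONFLAT : Prop := chern (hS 1) 0 0 1 3 6 ≠ 0

def St_METRIC : Prop :=
  ∀ (E : Type) [NormedAddCommGroup E] [NormedSpace ℝ E] [FiniteDimensional ℝ E]
    (M : Type) [TopologicalSpace M] [ChartedSpace E M] [IsManifold 𝓘(ℝ, E) ∞ M]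
    (G : M → E → E →ₗ[ℝ] E →ₗ[ℝ] ℝ),
    (∀ p, ∀ y ∈ (chartAt E p).target, ∀ u v, G p y u v = G p y v u) →
    (∀ p, ∀ y ∈ (chartAt E p).target, ∀ u, u ≠ 0 → 0 < G p y u u) →
    (∀ p u v, ContDiffOn ℝ ∞ (fun y => G p y u v) (chartAt E p).target) →
    (∀ p q, ∀ y ∈ (chartAt E p).target, (chartAt E p).symm y ∈ (chartAt E q).source → ∀ u v,
      G p y u v = G q (chartAt E q ((chartAt E p).symm y))
        (fderiv ℝ (fun w => chartAt E q ((chartAt E p).symm w)) y u)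
        (fderiv ℝ (fun w => chartAt E q ((chartAt E p).symm w)) y v)) →
    ∃ g : RMetric E M, ∀ p, ∀ y ∈ (chartAt E p).target, ∀ u v, gc g p y u v = G p y u v

/-- a group of isometries acting freely, properly discontinuously and cocompactly -/
def IsLat (Γ : Subgroup (Matrix (Fin 8) (Fin 8) ℂ)ˣ) : Prop :=
  (∀ γ ∈ Γ, ∀ x y : W, (γ.1 *ᵥ x) ⬝ᵥ (γ.1 *ᵥ y) = x ⬝ᵥ y) ∧
  (∀ γ ∈ Γ, ∀ x u y v : W, Sq (γ.1 *ᵥ x) (γ.1 *ᵥ u) (γ.1 *ᵥ y) (γ.1 *ᵥ v) = Sq x u y v) ∧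
  (∀ γ ∈ Γ, ∀ x : W, x ⬝ᵥ x = 1 → γ.1 *ᵥ x = x → γ = 1) ∧
  (∀ B : ℝ, {γ | γ ∈ Γ ∧ ∃ x : W, x ⬝ᵥ x = 1 ∧ ‖x‖ ≤ B ∧ ‖γ.1 *ᵥ x‖ ≤ B}.Finite) ∧
  ∃ B : ℝ, ∀ x : W, x ⬝ᵥ x = 1 → ∃ γ ∈ Γ, ‖γ.1 *ᵥ x‖ ≤ B

def St_QUOT : Prop :=
  ∀ Γ : Subgroup (Matrix (Fin 8) (Fin 8) ℂ)ˣ, IsLat Γ →
    ∃ (M : Type) (_ : TopologicalSpace M) (_ : ChartedSpace (V 7) M) (s : M → ℂ),
      T2Space M ∧ CompactSpace M ∧ ConnectedSpace M ∧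
      IsManifold 𝓘(ℝ, V 7) ∞ M ∧ IsManifold 𝓘(ℂ, V 7) ω M ∧ (∀ p, s p * s p = 1) ∧
      (∀ p : M, ∀ y ∈ (chartAt (V 7) p).target, 1 + y ⬝ᵥ y ≠ 0) ∧
      (∀ p q : M, ∀ y ∈ (chartAt (V 7) p).target,
        (chartAt (V 7) p).symm y ∈ (chartAt (V 7) q).source → ∃ γ ∈ Γ, ∀ᶠ w in 𝓝 y,
          stP (s q) (chartAt (V 7) q ((chartAt (V 7) p).symm w)) = γ.1 *ᵥ stP (s p) w) ∧
      ∃ p : M, s p = 1 ∧ chartAt (V 7) p p = 0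

def St_SHORT : Prop :=
  ∀ (ι : Type) [Fintype ι] [DecidableEq ι] (D : ℝ), ∃ C : ℝ,
    ∀ T : (ι → ℝ) →ₗ[ℝ] (ι → ℝ), LinearMap.det T ≠ 0 → |LinearMap.det T| ≤ D →
      (∀ z : ι → ℤ, z ≠ 0 → 1 ≤ ∑ i, (T (fun j => (z j : ℝ)) i) ^ 2) →
      ∀ φ : (ι → ℝ) →ₗ[ℝ] ℝ, φ ≠ 0 →
        ∃ z : ι → ℤ, ∑ i, (T (fun j => (z j : ℝ)) i) ^ 2 ≤ C ∧ φ (fun j => (z j : ℝ)) ≠ 0

def St_ARITH : Prop := ∃ Γ : Subgroup (Matrix (Fin 8) (Fin 8) ℂ)ˣ, IsLat Γ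

def St_MAIN : Prop :=
  ∃ (M : Type) (_ : TopologicalSpace M) (_ : T2Space M) (_ : CompactSpace M)
    (_ : ConnectedSpace M) (_ : ChartedSpace (V 7) M) (_ : IsManifold 𝓘(ℝ, V 7) ∞ M)
    (_ : IsManifold 𝓘(ℂ, V 7) ω M) (g : RMetric (V 7) M),
    IsHermitian g ∧ ConstChernHSC g 0 ∧ ¬ ChernFlat g

end Pool.Agent.Lib.HSC43
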