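import Pool.Agent.Lib.HSC43.Blue

set_option autoImplicit false

/-! The Chern curvature of the metric in the stereographic chart. -/

noncomputable section

namespace Pool.Agent.Lib.HSC43

open Matrix Pool.Agent.Lib.MP_40b2af_gt Complex Filter
open scoped ContDiff Topology ComplexConjugate

namespace Curv

section SqLin

variable (x x' u u' y y' v v' : W) (c : ℂ)

theorem Sq_add1 : Sq (x + x') u y v = Sq x u y v + Sq x' u y v := Qf_add1 _ _ _ _ _
theorem Sq_add2 : Sq x (u + u') y v = Sq x u y v + Sq x u' y v := Qf_add3 _ _ _ _ _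
theorem Sq_add3 : Sq x u (y + y') v = Sq x u y v + Sq x u y' v := by
  simp only [Sq, star_add, Qf_add2]
theorem Sq_add4 : Sq x u y (v + v') = Sq x u y v + Sq x u y v' := by
  simp only [Sq, star_add, Qf_add4]
theorem Sq_smul1 : Sq (c • x) u y v = c * Sq x u y v := Qf_smul1 _ _ _ _ _
theorem Sq_smul2 : Sq x (c • u) y v = c * Sq x u y v := Qf_smul3 _ _ _ _ _
theorem Sq_smul3 : Sq x u (c • y) v = conj c * Sq x u y v := by
  simp only [Sq, star_smul, Qf_smul2]; rfl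
theorem Sq_smul4 : Sq x u y (c • v) = conj c * Sq x u y v := by
  simp only [Sq, star_smul, Qf_smul4]; rfl

variable {ι : Type} (s : Finset ι) (w : ι → W)

theorem Sq_sum1 : Sq (∑ i ∈ s, w i) u y v = ∑ i ∈ s, Sq (w i) u y v := Qf_sum1 _ _ _ _ _
theorem Sq_sum2 : Sq x (∑ i ∈ s, w i) y v = ∑ i ∈ s, Sq x (w i) y v := Qf_sum3 _ _ _ _ _
theorem Sq_sum3 : Sq x u (∑ i ∈ s, w i) v = ∑ i ∈ s, Sq x u (w i) v := by
  simp only [Sq, star_sum, Qf_sum2]
theorem Sq_sum4 : Sq x u y (∑ i ∈ s, w i) = ∑ i ∈ s, Sq x u y (w i) := by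
  simp only [Sq, star_sum, Qf_sum4]

theorem star_dot : star x ⬝ᵥ star y = conj (x ⬝ᵥ y) := (map_dot (starRingEnd ℂ) x y).symm

theorem Sq_left : Sq x x y v = (x ⬝ᵥ x) * conj (y ⬝ᵥ v) := by
  rw [Sq, Qf_diag_left, star_dot]

theorem Sq_right : Sq x u y y = (x ⬝ᵥ u) * conj (y ⬝ᵥ y) := by
  rw [Sq, Qf_diag_right, star_dot]

end SqLin

/-- the current as a real continuous bilinear map -/
def curC : W →L[ℝ] W →L[ℝ] W :=
  (LinearMap.toContinuousBilinearMap (curL (R := ℂ))).bilinearRestrictScalars ℝ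

/-- the dot product as a real continuous bilinear map -/
def dotC : W →L[ℝ] W →L[ℝ] ℂ :=
  (LinearMap.toContinuousBilinearMap (dotProductBilin ℂ ℂ : W →ₗ[ℂ] W →ₗ[ℂ] ℂ)).bilinearRestrictScalars ℝ

theorem curC_apply (x y : W) : curC x y = cur x y := rfl

theorem dotC_apply (x y : W) : dotC x y = x ⬝ᵥ y := rfl

theorem hasF_Sq {p r p' r' : V 7 → W} {y : V 7} (hp : DifferentiableAt ℂ p y)
    (hr : DifferentiableAt ℂ r y) (hp' : DifferentiableAt ℂ p' y)
    (hr' : DifferentiableAt ℂ r' y) :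
    ∃ L : V 7 →L[ℝ] ℂ, HasFDerivAt (fun z => Sq (p z) (r z) (p' z) (r' z)) L y ∧ ∀ v, L v =
      Sq (fderiv ℂ p y v) (r y) (p' y) (r' y) + Sq (p y) (fderiv ℂ r y v) (p' y) (r' y)
        + Sq (p y) (r y) (fderiv ℂ p' y v) (r' y) + Sq (p y) (r y) (p' y) (fderiv ℂ r' y v) := by
  have h1 := hp.hasFDerivAt.restrictScalars ℝ
  have h2 := hr.hasFDerivAt.restrictScalars ℝ
  have h3 := (hp'.hasFDerivAt.restrictScalars ℝ).star
  have h4 := (hr'.hasFDerivAt.restrictScalars ℝ).star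
  have h5 := curC.hasFDerivAt_of_bilinear h1 h3
  have h6 := curC.hasFDerivAt_of_bilinear h2 h4
  have h7 := dotC.hasFDerivAt_of_bilinear h5 h6
  refine ⟨_, h7, fun v => ?_⟩
  simp only [ContinuousLinearMap.add_apply, ContinuousLinearMap.precompR_apply,
    ContinuousLinearMap.precompL_apply, ContinuousLinearMap.compL_apply,
    ContinuousLinearMap.comp_apply, map_add, ContinuousLinearMap.coe_restrictScalars',
    ContinuousLinearEquiv.coe_coe, starL'_apply, curC_apply, dotC_apply, Sq, Qf]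
  ring

/-- complex partial derivative -/
def D (i : Fin 7) (f : V 7 → W) (z : V 7) : W := fderiv ℂ f z (Pi.single i 1)

theorem single_I (i : Fin 7) : (Pi.single i I : V 7) = I • (Pi.single i 1 : V 7) := by
  rw [← Pi.single_smul, smul_eq_mul, mul_one]

theorem diff_Sq {p r p' r' : V 7 → W} {y : V 7} (hp : DifferentiableAt ℂ p y)
    (hr : DifferentiableAt ℂ r y) (hp' : DifferentiableAt ℂ p' y)
    (hr' : DifferentiableAt ℂ r' y) :
    DifferentiableAt ℝ (fun z => Sq (p z) (r z) (p' z) (r' z)) y := by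
  obtain ⟨L, hL, -⟩ := hasF_Sq hp hr hp' hr'
  exact hL.differentiableAt

theorem dz_Sq {p r p' r' : V 7 → W} {y : V 7} (hp : DifferentiableAt ℂ p y)
    (hr : DifferentiableAt ℂ r y) (hp' : DifferentiableAt ℂ p' y)
    (hr' : DifferentiableAt ℂ r' y) (i : Fin 7) :
    dz i (fun z => Sq (p z) (r z) (p' z) (r' z)) y =
      Sq (D i p y) (r y) (p' y) (r' y) + Sq (p y) (D i r y) (p' y) (r' y) := by
  obtain ⟨L, hL, hv⟩ := hasF_Sq hp hr hp' hr'
  rw [dz, hL.fderiv, hv, hv, single_I]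
  simp only [map_smul, Sq_smul1, Sq_smul2, Sq_smul3, Sq_smul4, conj_I, D]
  linear_combination (-1 / 2 : ℂ) * (Sq (fderiv ℂ p y (Pi.single i 1)) (r y) (p' y) (r' y)
    + Sq (p y) (fderiv ℂ r y (Pi.single i 1)) (p' y) (r' y)
    - Sq (p y) (r y) (fderiv ℂ p' y (Pi.single i 1)) (r' y)
    - Sq (p y) (r y) (p' y) (fderiv ℂ r' y (Pi.single i 1))) * I_mul_I

theorem dzb_Sq {p r p' r' : V 7 → W} {y : V 7} (hp : DifferentiableAt ℂ p y)
    (hr : DifferentiableAt ℂ r y) (hp' : DifferentiableAt ℂ p' y)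
    (hr' : DifferentiableAt ℂ r' y) (i : Fin 7) :
    dzb i (fun z => Sq (p z) (r z) (p' z) (r' z)) y =
      Sq (p y) (r y) (D i p' y) (r' y) + Sq (p y) (r y) (p' y) (D i r' y) := by
  obtain ⟨L, hL, hv⟩ := hasF_Sq hp hr hp' hr'
  rw [dzb, hL.fderiv, hv, hv, single_I]
  simp only [map_smul, Sq_smul1, Sq_smul2, Sq_smul3, Sq_smul4, conj_I, D]
  linear_combination (1 / 2 : ℂ) * (Sq (fderiv ℂ p y (Pi.single i 1)) (r y) (p' y) (r' y)
    + Sq (p y) (fderiv ℂ r y (Pi.single i 1)) (p' y) (r' y)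
    - Sq (p y) (r y) (fderiv ℂ p' y (Pi.single i 1)) (r' y)
    - Sq (p y) (r y) (p' y) (fderiv ℂ r' y (Pi.single i 1))) * I_mul_I

theorem dz_add {f g : V 7 → ℂ} {y : V 7} (hf : DifferentiableAt ℝ f y)
    (hg : DifferentiableAt ℝ g y) (i : Fin 7) :
    dz i (fun z => f z + g z) y = dz i f y + dz i g y := by
  simp only [dz, fderiv_fun_add hf hg, ContinuousLinearMap.add_apply]
  ring

theorem dz_congr {f g : V 7 → ℂ} {y : V 7} (h : f =ᶠ[𝓝 y] g) (i : Fin 7) :
    dz i f y = dz i g y := by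
  simp only [dz, h.fderiv_eq]

theorem an_D {f : V 7 → W} {y : V 7} (h : AnalyticAt ℂ f y) (i : Fin 7) :
    AnalyticAt ℂ (D i f) y :=
  ((ContinuousLinearMap.apply ℂ W (Pi.single i 1 : V 7)).analyticAt _).comp h.fderiv

/-- the metric induced by a parametrisation -/
def hP (P : V 7 → W) : Her 7 := fun z => Matrix.of fun k l => Sq (P z) (D k P z) (P z) (D l P z)

theorem hS_eq (s : ℂ) : hS s = hP (stP s) := rfl

theorem chern_hP {P : V 7 → W} {y : V 7} (h : AnalyticAt ℂ P y) (i j k l : Fin 7) :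
    chern (hP P) y i j k l =
      -(Sq (D i P y) (D k P y) (D j P y) (D l P y) + Sq (P y) (D i (D k P) y) (D j P y) (D l P y)
        + (Sq (D i P y) (D k P y) (P y) (D j (D l P) y)
          + Sq (P y) (D i (D k P) y) (P y) (D j (D l P) y)))
      + ∑ p, ∑ q, (hP P y)⁻¹ q p
        * (Sq (D i P y) (D k P y) (P y) (D q P y) + Sq (P y) (D i (D k P) y) (P y) (D q P y))
        * (Sq (P y) (D p P y) (D j P y) (D l P y) + Sq (P y) (D p P y) (P y) (D j (D l P) y)) := by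
  have d0 := h.differentiableAt
  have d1 : ∀ a, DifferentiableAt ℂ (D a P) y := fun a => (an_D h a).differentiableAt
  have d2 : ∀ a b, DifferentiableAt ℂ (D a (D b P)) y :=
    fun a b => (an_D (an_D h b) a).differentiableAt
  have e1 : (dzb j fun z => hP P z k l) =ᶠ[𝓝 y] fun z =>
      Sq (P z) (D k P z) (D j P z) (D l P z) + Sq (P z) (D k P z) (P z) (D j (D l P) z) := by
    filter_upwards [h.eventually_analyticAt] with z hz
    exact dzb_Sq hz.differentiableAt (an_D hz k).differentiableAt hz.differentiableAt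
      (an_D hz l).differentiableAt j
  rw [chern, dz_congr e1, dz_add (diff_Sq d0 (d1 k) (d1 j) (d1 l))
    (diff_Sq d0 (d1 k) d0 (d2 j l)), dz_Sq d0 (d1 k) (d1 j) (d1 l), dz_Sq d0 (d1 k) d0 (d2 j l)]
  congr 1
  refine Finset.sum_congr rfl fun p _ => Finset.sum_congr rfl fun q _ => ?_
  congr 1
  · congr 1
    exact dz_Sq d0 (d1 k) d0 (d1 q) i
  · exact dzb_Sq d0 (d1 p) d0 (d1 l) j

theorem sum22 (F : Fin 7 → Fin 7 → Fin 7 → Fin 7 → ℂ) :
    ∑ a, ∑ b, ∑ c, ∑ d, F a b c d = ∑ c, ∑ d, ∑ a, ∑ b, F a b c d := by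
  calc ∑ a, ∑ b, ∑ c, ∑ d, F a b c d = ∑ a, ∑ c, ∑ d, ∑ b, F a b c d := by
        refine Finset.sum_congr rfl fun a _ => ?_
        rw [Finset.sum_comm]
        exact Finset.sum_congr rfl fun c _ => Finset.sum_comm
    _ = ∑ c, ∑ d, ∑ a, ∑ b, F a b c d := by
        rw [Finset.sum_comm]
        exact Finset.sum_congr rfl fun c _ => Finset.sum_comm

theorem rearr (α : Fin 7 → Fin 7 → Fin 7 → Fin 7 → ℂ) (β γ : Fin 7 → Fin 7 → Fin 7 → ℂ)
    (G : Fin 7 → Fin 7 → ℂ) (X Y : Fin 7 → ℂ) :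
    ∑ i, ∑ j, ∑ k, ∑ l, (-(α i j k l) + ∑ p, ∑ q, G q p * β i k q * γ p j l)
        * X i * Y j * X k * Y l =
      -(∑ j, ∑ l, Y j * Y l * ∑ i, ∑ k, X i * X k * α i j k l)
        + ∑ p, ∑ q, G q p * (∑ i, ∑ k, X i * X k * β i k q) * ∑ j, ∑ l, Y j * Y l * γ p j l := by
  have h1 : ∀ F : Fin 7 → Fin 7 → Fin 7 → Fin 7 → ℂ,
      ∑ i, ∑ j, ∑ k, ∑ l, F i j k l = ∑ j, ∑ l, ∑ i, ∑ k, F i j k l := by
    intro F
    rw [← sum22 fun i k j l => F i j k l]
    exact Finset.sum_congr rfl fun i _ => Finset.sum_comm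
  have h2 : ∑ p, ∑ q, G q p * (∑ i, ∑ k, X i * X k * β i k q) * ∑ j, ∑ l, Y j * Y l * γ p j l
      = ∑ j, ∑ l, ∑ i, ∑ k, (∑ p, ∑ q, G q p * β i k q * γ p j l) * X i * Y j * X k * Y l := by
    have h3 : ∀ b : Fin 7 → ℂ, ∑ p, ∑ q, G q p * b q * ∑ j, ∑ l, Y j * Y l * γ p j l
        = ∑ j, ∑ l, ∑ p, ∑ q, G q p * b q * (Y j * Y l * γ p j l) := by
      intro b
      simp only [Finset.mul_sum]
      rw [sum22]
    rw [h3 fun q => ∑ i, ∑ k, X i * X k * β i k q]
    refine Finset.sum_congr rfl fun j _ => Finset.sum_congr rfl fun l _ => ?_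
    simp only [Finset.mul_sum, Finset.sum_mul]
    rw [sum22]
    refine Finset.sum_congr rfl fun i _ => Finset.sum_congr rfl fun k _ =>
      Finset.sum_congr rfl fun p _ => Finset.sum_congr rfl fun q _ => ?_
    ring
  rw [h1, h2]
  simp only [Finset.mul_sum, ← Finset.sum_neg_distrib, ← Finset.sum_add_distrib]
  refine Finset.sum_congr rfl fun j _ => Finset.sum_congr rfl fun l _ =>
    Finset.sum_congr rfl fun i _ => Finset.sum_congr rfl fun k _ => ?_
  ring

theorem contract {x : W} {A : Fin 7 → W} {B : Fin 7 → Fin 7 → W} (hx : x ⬝ᵥ x = 1)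
    (hB : ∀ i k, A i ⬝ᵥ A k + x ⬝ᵥ B i k = 0)
    (hon : ∀ w : W, w ⬝ᵥ x = 0 → ∃ Y : V 7, w = ∑ p, Y p • A p)
    {G : Matrix (Fin 7) (Fin 7) ℂ} (hG : (Matrix.of fun k l => Sq x (A k) x (A l)) * G = 1)
    (X : V 7) :
    ∑ i, ∑ j, ∑ k, ∑ l, (-(Sq (A i) (A k) (A j) (A l) + Sq x (B i k) (A j) (A l)
        + (Sq (A i) (A k) x (B j l) + Sq x (B i k) x (B j l)))
      + ∑ p, ∑ q, G q p * (Sq (A i) (A k) x (A q) + Sq x (B i k) x (A q))
        * (Sq x (A p) (A j) (A l) + Sq x (A p) x (B j l)))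
      * X i * conj (X j) * X k * conj (X l) = 0 := by
  set t : W := ∑ i, ∑ k, (X i * X k) • (B i k + (A i ⬝ᵥ A k) • x) with ht
  have h0 : t ⬝ᵥ x = 0 := by
    simp only [ht, sum_dotProduct, smul_dotProduct, add_dotProduct, hx, smul_eq_mul, mul_one]
    refine Finset.sum_eq_zero fun i _ => Finset.sum_eq_zero fun k _ => ?_
    rw [dotProduct_comm (B i k), add_comm, hB, mul_zero]
  have huu : (∑ i, X i • A i) ⬝ᵥ (∑ i, X i • A i) = ∑ i, ∑ k, X i * X k * (A i ⬝ᵥ A k) := by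
    rw [sum_dotProduct]
    refine Finset.sum_congr rfl fun i _ => ?_
    rw [dotProduct_sum]
    refine Finset.sum_congr rfl fun k _ => ?_
    rw [smul_dotProduct, dotProduct_smul, smul_eq_mul, smul_eq_mul, mul_assoc]
  have L1 : ∀ y v, ∑ i, ∑ k, X i * X k * (Sq (A i) (A k) y v + Sq x (B i k) y v)
      = Sq x t y v := by
    intro y v
    have h1 : ∑ i, ∑ k, X i * X k * Sq (A i) (A k) y v
        = Sq (∑ i, X i • A i) (∑ i, X i • A i) y v := by
      rw [Sq_sum1]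
      refine Finset.sum_congr rfl fun i _ => ?_
      rw [Sq_sum2]
      refine Finset.sum_congr rfl fun k _ => ?_
      rw [Sq_smul1, Sq_smul2, mul_assoc]
    simp only [mul_add, Finset.sum_add_distrib]
    rw [h1, Sq_left, huu]
    simp only [ht, Sq_sum2, Sq_smul2, Sq_add2, Sq_left, hx, one_mul, mul_add,
      Finset.sum_add_distrib, Finset.sum_mul, mul_assoc]
    ring
  have L2 : ∀ a b, ∑ j, ∑ l, conj (X j) * conj (X l) * (Sq a b (A j) (A l) + Sq a b x (B j l))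
      = Sq a b x t := by
    intro a b
    have h1 : ∑ j, ∑ l, conj (X j) * conj (X l) * Sq a b (A j) (A l)
        = Sq a b (∑ i, X i • A i) (∑ i, X i • A i) := by
      rw [Sq_sum3]
      refine Finset.sum_congr rfl fun i _ => ?_
      rw [Sq_sum4]
      refine Finset.sum_congr rfl fun k _ => ?_
      rw [Sq_smul3, Sq_smul4, mul_assoc]
    simp only [mul_add, Finset.sum_add_distrib]
    rw [h1, Sq_right, huu]
    simp only [ht, Sq_sum4, Sq_smul4, Sq_add4, Sq_right, hx, map_one, mul_one, mul_add,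
      Finset.sum_add_distrib, Finset.mul_sum, map_sum, map_mul]
    rw [add_comm]
    congr 1
    refine Finset.sum_congr rfl fun i _ => Finset.sum_congr rfl fun k _ => ?_
    ring
  obtain ⟨Y, hY⟩ := hon t h0
  rw [rearr (fun i j k l => Sq (A i) (A k) (A j) (A l) + Sq x (B i k) (A j) (A l)
        + (Sq (A i) (A k) x (B j l) + Sq x (B i k) x (B j l)))
      (fun i k q => Sq (A i) (A k) x (A q) + Sq x (B i k) x (A q))
      (fun p j l => Sq x (A p) (A j) (A l) + Sq x (A p) x (B j l)) (fun q p => G q p) X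
      (fun j => conj (X j))]
  have e1 : ∀ j l, ∑ i, ∑ k, X i * X k * (Sq (A i) (A k) (A j) (A l) + Sq x (B i k) (A j) (A l)
      + (Sq (A i) (A k) x (B j l) + Sq x (B i k) x (B j l)))
      = Sq x t (A j) (A l) + Sq x t x (B j l) := by
    intro j l
    rw [← L1, ← L1]
    simp only [← Finset.sum_add_distrib, ← mul_add]
  have e2 : ∀ p, ∑ q, G q p * Sq x t x (A q) = Y p := by
    intro p
    have h1 := congrFun (congrArg (fun M => Y ᵥ* M) hG) p
    simp only [vecMul_one, ← vecMul_vecMul] at h1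
    rw [← h1, vecMul, dotProduct]
    refine Finset.sum_congr rfl fun q _ => ?_
    rw [mul_comm, hY, Sq_sum2]
    simp only [Sq_smul2]
    rfl
  simp only [e1, L1, L2, ← Finset.sum_mul, e2]
  have e3 : ∑ p, Y p * Sq x (A p) x t = Sq x t x t := by
    simp only [← Sq_smul2, ← Sq_sum2, ← hY]
  rw [e3, neg_add_cancel]

theorem D_dot {f g : V 7 → W} {y : V 7} (hf : DifferentiableAt ℂ f y)
    (hg : DifferentiableAt ℂ g y) {c : ℂ} (h : ∀ᶠ z in 𝓝 y, f z ⬝ᵥ g z = c) (i : Fin 7) :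
    D i f y ⬝ᵥ g y + f y ⬝ᵥ D i g y = 0 := by
  have h1 := (LinearMap.toContinuousBilinearMap
    (dotProductBilin ℂ ℂ : W →ₗ[ℂ] W →ₗ[ℂ] ℂ)).hasFDerivAt_of_bilinear hf.hasFDerivAt
      hg.hasFDerivAt
  have h2 : HasFDerivAt (fun z => f z ⬝ᵥ g z) (0 : V 7 →L[ℂ] ℂ) y :=
    (hasFDerivAt_const c y).congr_of_eventuallyEq h
  have h3 := congrArg (fun L : V 7 →L[ℂ] ℂ => L (Pi.single i 1)) (h1.unique h2)
  rw [add_comm]
  exact h3

theorem ev_ne {y : V 7} (h : 1 + y ⬝ᵥ y ≠ 0) : ∀ᶠ z in 𝓝 y, 1 + z ⬝ᵥ z ≠ 0 := by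
  have : Continuous fun z : V 7 => 1 + z ⬝ᵥ z := by fun_prop
  exact this.continuousAt.eventually_ne h

theorem rel2 (hS : St_STEREO) {s : ℂ} (hs : s * s = 1) {y : V 7} (h : 1 + y ⬝ᵥ y ≠ 0)
    (i k : Fin 7) :
    D i (stP s) y ⬝ᵥ D k (stP s) y + stP s y ⬝ᵥ D i (D k (stP s)) y = 0 := by
  have ha : AnalyticAt ℂ (stP s) y := ((hS s hs).1 y h).2.2.2.1.analyticAt
  refine D_dot ha.differentiableAt (an_D ha k).differentiableAt (c := 0) ?_ i
  filter_upwards [ev_ne h] with z hz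
  have hz' := ((hS s hs).1 z hz).2.2.2.1.analyticAt.differentiableAt
  have h1 := D_dot hz' hz' (c := 1) ((ev_ne hz).mono fun w hw => ((hS s hs).1 w hw).1) k
  rw [dotProduct_comm (D k (stP s) z)] at h1
  linear_combination (1 / 2 : ℂ) * h1

theorem dP_eq (s : ℂ) (y Y : V 7) : dP s y Y = ∑ p, Y p • D p (stP s) y := by
  conv_lhs => rw [pi_eq_sum_univ' Y, map_sum]
  refine Finset.sum_congr rfl fun p _ => ?_
  rw [map_smul]
  rfl

open scoped ComplexOrder in
theorem dot_star_zero {v : W} (h : v ⬝ᵥ star v = 0) : v = 0 := dotProduct_self_star_eq_zero.1 h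

theorem det_ne (hS : St_STEREO) (hB : St_BOOST) {s : ℂ} (hs : s * s = 1) {y : V 7}
    (h : 1 + y ⬝ᵥ y ≠ 0) : (hP (stP s) y).det ≠ 0 := by
  intro h0
  obtain ⟨Y, hY, hz⟩ := Matrix.exists_vecMul_eq_zero_iff.2 h0
  obtain ⟨h1, -, -, -, hi, -⟩ := (hS s hs).1 y h
  obtain ⟨a, ha, -, hq⟩ := hB _ h1
  have h2 : Sq (stP s y) (dP s y Y) (stP s y) (dP s y Y) = 0 := by
    rw [dP_eq, Sq_sum4]
    refine Finset.sum_eq_zero fun q _ => ?_
    have h3 : Sq (stP s y) (∑ p, Y p • D p (stP s) y) (stP s y) (D q (stP s) y) = 0 := by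
      rw [Sq_sum2]
      simp only [Sq_smul2]
      exact congrFun hz q
    rw [Sq_smul4, h3, mul_zero]
  rw [hq] at h2
  replace h2 := dot_star_zero h2
  have h3 := om_til_om a (dP s y Y)
  rw [h2, ha, one_smul, ← omL_apply, map_zero] at h3
  exact hY (hi (by rw [← h3, map_zero]))

/-- the inclusion of the imaginary octonions -/
def inc : V 7 →L[ℂ] W :=
  LinearMap.toContinuousLinearMap
    { toFun := fun z => (Fin.cons 0 z : Fin (7 + 1) → ℂ)
      map_add' := fun a b => by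
        funext i
        refine Fin.cases ?_ (fun j => ?_) i <;> simp
      map_smul' := fun c a => by
        funext i
        refine Fin.cases ?_ (fun j => ?_) i <;> simp }

theorem inc_apply (z : V 7) : inc z = (Fin.cons 0 z : Fin (7 + 1) → ℂ) := rfl

theorem e0_succ (j : Fin 7) : (e0 : W) j.succ = 0 := by
  fin_cases j <;> rfl

theorem inc_single (k : Fin 7) : inc (Pi.single k 1) = Pi.single k.succ 1 := by
  funext i
  refine Fin.cases ?_ (fun j => ?_) i
  · rw [inc_apply, Fin.cons_zero, Pi.single_eq_of_ne (Fin.succ_ne_zero k).symm]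
  · simp only [inc_apply, Fin.cons_succ, Pi.single_apply, Fin.succ_inj]

theorem stP_mul {z : V 7} (h : 1 + z ⬝ᵥ z ≠ 0) :
    (1 + z ⬝ᵥ z) • (stP 1 z + e0) = (2 : ℂ) • (e0 + inc z) := by
  rw [smul_add, stP, smul_smul, mul_inv_cancel₀ h, one_smul, inc_apply]
  funext i
  refine Fin.cases ?_ (fun j => ?_) i
  · simp only [Pi.add_apply, Pi.smul_apply, Fin.cons_zero, e00, smul_eq_mul]
    ring
  · simp only [Pi.add_apply, Pi.smul_apply, Fin.cons_succ, e0_succ, smul_eq_mul]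
    ring

theorem hasF_q (y : V 7) : ∃ L : V 7 →L[ℂ] ℂ, HasFDerivAt (fun z : V 7 => 1 + z ⬝ᵥ z) L y ∧
    ∀ k, L (Pi.single k 1) = 2 * y k := by
  have h1 := (LinearMap.toContinuousBilinearMap
    (dotProductBilin ℂ ℂ : V 7 →ₗ[ℂ] V 7 →ₗ[ℂ] ℂ)).hasFDerivAt_of_bilinear (hasFDerivAt_id y)
      (hasFDerivAt_id y)
  refine ⟨_, h1.const_add 1, fun k => ?_⟩
  change y ⬝ᵥ Pi.single k 1 + Pi.single k 1 ⬝ᵥ y = _
  simp only [dotProduct_single, single_dotProduct]
  ring

theorem D_one (hS : St_STEREO) {y : V 7} (h : 1 + y ⬝ᵥ y ≠ 0) (k : Fin 7) :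
    (1 + y ⬝ᵥ y) • D k (stP 1) y + (2 * y k) • (stP 1 y + e0)
      = (2 : ℂ) • inc (Pi.single k 1) := by
  have hd := ((hS 1 (one_mul 1)).1 y h).2.2.2.1.analyticAt.differentiableAt.hasFDerivAt
  obtain ⟨L, hL, hv⟩ := hasF_q y
  have h1 := hL.fun_smul (hd.add_const e0)
  have h2 : HasFDerivAt (fun z : V 7 => (2 : ℂ) • (e0 + inc z)) ((2 : ℂ) • inc) y :=
    (inc.hasFDerivAt.const_add e0).fun_const_smul 2
  have h3 := h1.unique (h2.congr_of_eventuallyEq ((ev_ne h).mono fun z hz => stP_mul hz))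
  have h4 := congrArg (fun L : V 7 →L[ℂ] W => L (Pi.single k 1)) h3
  simpa only [ContinuousLinearMap.add_apply, ContinuousLinearMap.smul_apply,
    ContinuousLinearMap.smulRight_apply, hv, D] using h4

theorem zero_ne : 1 + (0 : V 7) ⬝ᵥ 0 ≠ 0 := by simp

theorem D_one_zero (hS : St_STEREO) (k : Fin 7) :
    D k (stP 1) 0 = (2 : ℂ) • inc (Pi.single k 1) := by
  simpa using D_one hS zero_ne k

theorem D_two_zero (hS : St_STEREO) {i k : Fin 7} (hik : k ≠ i) : D i (D k (stP 1)) 0 = 0 := by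
  have ha := ((hS 1 (one_mul 1)).1 0 zero_ne).2.2.2.1.analyticAt
  obtain ⟨L, hL, hv⟩ := hasF_q 0
  have h1 := hL.fun_smul (an_D ha k).differentiableAt.hasFDerivAt
  have h2 := (((ContinuousLinearMap.proj k : V 7 →L[ℂ] ℂ).hasFDerivAt (x := 0)).const_mul
    2).fun_smul (ha.differentiableAt.hasFDerivAt.add_const e0)
  have h3 := (h1.fun_add h2).unique ((hasFDerivAt_const _ _).congr_of_eventuallyEq
    ((ev_ne zero_ne).mono fun z hz => D_one hS hz k))
  have h4 := congrArg (fun L : V 7 →L[ℂ] W => L (Pi.single i 1)) h3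
  simpa [hv, Pi.single_eq_of_ne hik, D] using h4

theorem stP_zero : stP 1 0 = e0 := by
  have h := stP_mul zero_ne
  simp only [dotProduct_zero, add_zero, one_smul, map_zero, two_smul] at h
  exact add_right_cancel h

theorem star_e0 : star (e0 : W) = e0 := map_e0 (starRingEnd ℂ)

theorem star_sg (k : Fin 8) : star (Pi.single k 1 : W) = Pi.single k 1 := by
  rw [Pi.star_single, star_one]

theorem hP_zero (hS : St_STEREO) : hP (stP 1) 0 = (4 : ℂ) • (1 : Matrix (Fin 7) (Fin 7) ℂ) := by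
  ext k l
  simp only [hP, of_apply, stP_zero, D_one_zero hS, Sq_smul2, Sq_smul4]
  rw [Sq, star_e0, inc_single, inc_single, star_sg, Qf_of_cur cur_e0, single_dotProduct]
  simp only [Pi.single_apply, Fin.succ_inj, Matrix.smul_apply, one_apply, map_ofNat, smul_eq_mul]
  split_ifs <;> norm_num

end Curv

open Curv in
theorem blk_NONFLAT (hS : St_STEREO) : St_NONFLAT := by
  have ha := ((hS 1 (one_mul 1)).1 0 zero_ne).2.2.2.1.analyticAt
  have hi : ((4 : ℂ) • (1 : Matrix (Fin 7) (Fin 7) ℂ))⁻¹ = (1 / 4 : ℂ) • 1 :=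
    Matrix.inv_eq_left_inv (by simp [smul_smul])
  have z2 : ∀ x y v : W, Sq x 0 y v = 0 := fun x y v => by
    simpa using Sq_smul2 x 0 y v 0
  have z4 : ∀ x u y : W, Sq x u y 0 = 0 := fun x u y => by
    simpa using Sq_smul4 x u y 0 0
  rw [St_NONFLAT, hS_eq, chern_hP ha, hP_zero hS, hi, D_two_zero hS (by decide),
    D_two_zero hS (by decide)]
  simp only [z2, z4, add_zero, stP_zero, D_one_zero hS, Sq_smul1, Sq_smul2, Sq_smul3, Sq_smul4,
    Matrix.smul_apply, one_apply, smul_eq_mul, mul_ite, ite_mul, mul_zero, zero_mul,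
    Finset.sum_ite_eq', Finset.mem_univ, if_true]
  simp only [Sq, star_e0, inc_single, star_sg, Fin.sum_univ_seven, Qf, cur, dot8, om0, om1, om2,
    om3, om4, om5, om6, om7, til0, til1, til2, til3, til4, til5, til6, til7, e00, e01, e02, e03,
    e04, e05, e06, e07, map_ofNat, Pi.single_apply]
  simp
  norm_num

open Curv in
theorem blk_CURV (hS : St_STEREO) (hB : St_BOOST) : St_CURV := by
  intro s hs z hz X
  have ha : AnalyticAt ℂ (stP s) z := ((hS s hs).1 z hz).2.2.2.1.analyticAt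
  simp only [hS_eq, chern_hP ha]
  refine contract (A := fun k => D k (stP s) z) (B := fun i k => D i (D k (stP s)) z)
    ((hS s hs).1 z hz).1 (rel2 hS hs hz) (fun w hw => ?_)
    (Matrix.mul_nonsing_inv _ (Ne.isUnit (det_ne hS hB hs hz))) X
  obtain ⟨v, hv⟩ := ((hS s hs).1 z hz).2.2.2.2.2 w hw
  exact ⟨v, by rw [← hv, dP_eq]⟩

end Pool.Agent.Lib.HSC43
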