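import Pool.Agent.Lib.HSC43.Blue

set_option autoImplicit false

/-! Final assembly: the Hermitian metric on the compact quotient and its Chern curvature. -/

noncomputable section

namespace Pool.Agent.Lib.HSC43

open Matrix Pool.Agent.Lib.MP_40b2af_gt
open scoped Manifold ContDiff Topology ComplexConjugate

namespace FinB

theorem Sq_add2 (x u u' y v : W) : Sq x (u + u') y v = Sq x u y v + Sq x u' y v :=
  Qf_add3 _ _ _ _ _

theorem Sq_add4 (x u y v v' : W) : Sq x u y (v + v') = Sq x u y v + Sq x u y v' := by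
  simp only [Sq, star_add, Qf_add4]

theorem Sq_smul2 (c : ℂ) (x u y v : W) : Sq x (c • u) y v = c * Sq x u y v :=
  Qf_smul3 _ _ _ _ _

theorem Sq_smul4 (c : ℂ) (x u y v : W) : Sq x u y (c • v) = conj c * Sq x u y v := by
  simp only [Sq, star_smul, Qf_smul4]
  rfl

theorem conj_comp (x : W) : (starRingEnd ℂ) ∘ x = star x := rfl

theorem Sq_conj (x u y v : W) : conj (Sq x u y v) = Sq y v x u := by
  rw [Sq, map_Qf, conj_comp, conj_comp, conj_comp, conj_comp, star_star, star_star, Qf_swap, Sq]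

/-- the Hermitian form in the stereographic chart -/
def HH (s : ℂ) (y u v : V 7) : ℂ := Sq (stP s y) (dP s y u) (stP s y) (dP s y v)

theorem HH_add1 (s : ℂ) (y u u' v : V 7) : HH s y (u + u') v = HH s y u v + HH s y u' v := by
  simp only [HH, map_add, Sq_add2]

theorem HH_add2 (s : ℂ) (y u v v' : V 7) : HH s y u (v + v') = HH s y u v + HH s y u v' := by
  simp only [HH, map_add, Sq_add4]

theorem HH_smul1 (s : ℂ) (y : V 7) (c : ℂ) (u v : V 7) :
    HH s y (c • u) v = c * HH s y u v := by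
  simp only [HH, map_smul, Sq_smul2]

theorem HH_smul2 (s : ℂ) (y : V 7) (c : ℂ) (u v : V 7) :
    HH s y u (c • v) = conj c * HH s y u v := by
  simp only [HH, map_smul, Sq_smul4]

theorem real_smul (c : ℝ) (u : V 7) : c • u = (c : ℂ) • u := by
  funext i
  simp

/-- the real bilinear form in the stereographic chart -/
def GG (s : ℂ) (y : V 7) : V 7 →ₗ[ℝ] V 7 →ₗ[ℝ] ℝ :=
  LinearMap.mk₂ ℝ (fun u v => 2 * (HH s y u v).re)
    (fun u u' v => by rw [HH_add1, Complex.add_re]; ring)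
    (fun c u v => by rw [real_smul, HH_smul1, Complex.re_ofReal_mul, smul_eq_mul]; ring)
    (fun u v v' => by rw [HH_add2, Complex.add_re]; ring)
    (fun c u v => by
      rw [real_smul, HH_smul2, Complex.conj_ofReal, Complex.re_ofReal_mul, smul_eq_mul]; ring)

theorem GG_apply (s : ℂ) (y u v : V 7) : GG s y u v = 2 * (HH s y u v).re := rfl

theorem GG_symm (s : ℂ) (y u v : V 7) : GG s y u v = GG s y v u := by
  rw [GG_apply, GG_apply, HH, HH, ← Sq_conj, Complex.conj_re]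

theorem GG_herm (s : ℂ) (y u v : V 7) :
    GG s y (Complex.I • u) (Complex.I • v) = GG s y u v := by
  rw [GG_apply, GG_apply, HH_smul1, HH_smul2, Complex.conj_I, ← mul_assoc, mul_neg,
    Complex.I_mul_I, neg_neg, one_mul]

theorem GG_coef (s : ℂ) (y : V 7) (k l : Fin 7) :
    ((GG s y (Pi.single k 1) (Pi.single l 1) : ℝ) +
      Complex.I * (GG s y (Pi.single k 1) (Pi.single l Complex.I) : ℝ)) / 2 = hS s y k l := by
  have h1 : (Pi.single l Complex.I : V 7) = Complex.I • (Pi.single l 1 : V 7) := by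
    rw [← Pi.single_smul, smul_eq_mul, mul_one]
  have h2 : hS s y k l = HH s y (Pi.single k 1) (Pi.single l 1) := rfl
  rw [h1, h2, GG_apply, GG_apply, HH_smul2, Complex.conj_I]
  apply Complex.ext <;> simp

theorem GG_pos (hB : St_BOOST) (hS' : St_STEREO) (s : ℂ) (hs : s * s = 1) (y : V 7)
    (hy : 1 + y ⬝ᵥ y ≠ 0) (u : V 7) (hu : u ≠ 0) : 0 < GG s y u u := by
  obtain ⟨h1, -, -, -, hinj, -⟩ := (hS' s hs).1 y hy
  obtain ⟨a, ha, -, hQ⟩ := hB _ h1
  have hd : dP s y u ≠ 0 := fun h => hu (hinj (by rw [h, map_zero]))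
  have ho : om a (dP s y u) ≠ 0 := by
    intro h
    have h3 := om_til_om a (dP s y u)
    rw [h, ha, one_smul, ← omL_apply, map_zero] at h3
    exact hd h3.symm
  rw [GG_apply, HH, hQ]
  open ComplexOrder in
  have h4 : 0 < om a (dP s y u) ⬝ᵥ star (om a (dP s y u)) :=
    dotProduct_self_star_pos_iff.2 ho
  have h5 := (Complex.pos_iff.1 h4).1
  linarith

section smooth

variable {E : Type} [NormedAddCommGroup E] [NormedSpace ℝ E] {y : E}

theorem cd_star {f : E → W} (hf : ContDiffAt ℝ ∞ f y) :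
    ContDiffAt ℝ ∞ (fun z => star (f z)) y := by
  refine contDiffAt_pi.2 fun i => ?_
  exact Complex.conjCLE.contDiff.contDiffAt.comp y (contDiffAt_pi.1 hf i)

theorem cd_cur {f g : E → W} (hf : ContDiffAt ℝ ∞ f y) (hg : ContDiffAt ℝ ∞ g y) :
    ContDiffAt ℝ ∞ (fun z => cur (f z) (g z)) y := by
  let B : W →L[ℂ] W →L[ℂ] W := (curL (R := ℂ)).toContinuousBilinearMap
  have h1 : ContDiff ℂ ∞ (fun p : W × W => B p.1 p.2) := B.isBoundedBilinearMap.contDiff
  have h2 : ContDiffAt ℝ ∞ ((fun p : W × W => B p.1 p.2) ∘ fun z => (f z, g z)) y :=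
    (h1.restrict_scalars ℝ).contDiffAt.comp y (hf.prodMk hg)
  have h3 : (fun z => cur (f z) (g z)) = (fun p : W × W => B p.1 p.2) ∘ fun z => (f z, g z) := by
    funext z
    simp only [Function.comp_apply, B, LinearMap.toContinuousBilinearMap_apply, curL_apply]
  rw [h3]
  exact h2

theorem cd_dot {f g : E → W} (hf : ContDiffAt ℝ ∞ f y) (hg : ContDiffAt ℝ ∞ g y) :
    ContDiffAt ℝ ∞ (fun z => f z ⬝ᵥ g z) y := by
  have hf' := contDiffAt_pi.1 hf
  have hg' := contDiffAt_pi.1 hg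
  simp only [dotProduct]
  exact ContDiffAt.sum fun a _ => (hf' a).mul (hg' a)

theorem cd_Sq {f g h k : E → W} (hf : ContDiffAt ℝ ∞ f y) (hg : ContDiffAt ℝ ∞ g y)
    (hh : ContDiffAt ℝ ∞ h y) (hk : ContDiffAt ℝ ∞ k y) :
    ContDiffAt ℝ ∞ (fun z => Sq (f z) (g z) (h z) (k z)) y :=
  cd_dot (cd_cur hf (cd_star hh)) (cd_cur hg (cd_star hk))

end smooth

theorem GG_smooth (hS' : St_STEREO) (s : ℂ) (hs : s * s = 1) (y : V 7)
    (hy : 1 + y ⬝ᵥ y ≠ 0) (u v : V 7) : ContDiffAt ℝ ∞ (fun z => GG s z u v) y := by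
  obtain ⟨-, -, -, hP, -, -⟩ := (hS' s hs).1 y hy
  have hP' : ContDiffAt ℝ ∞ (stP s) y := (hP.restrict_scalars ℝ).of_le le_top
  have hD : ContDiffAt ℂ ω (fderiv ℂ (stP s)) y := hP.fderiv_right (m := ω) le_top
  have hD' : ∀ w : V 7, ContDiffAt ℝ ∞ (fun z => dP s z w) y := fun w =>
    ((hD.clm_apply (contDiffAt_const (c := w))).restrict_scalars ℝ).of_le le_top
  have h1 : ContDiffAt ℝ ∞ (fun z => HH s z u v) y := cd_Sq hP' (hD' u) hP' (hD' v)
  exact contDiffAt_const.mul (Complex.reCLM.contDiff.contDiffAt.comp y h1)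

theorem dP_compat (hS' : St_STEREO) {s s' : ℂ} (hs : s * s = 1) (hs' : s' * s' = 1)
    {y : V 7} (hy : 1 + y ⬝ᵥ y ≠ 0) {tr : V 7 → V 7} (htr : DifferentiableAt ℝ tr y)
    (hy' : 1 + tr y ⬝ᵥ tr y ≠ 0) (A : Matrix (Fin 8) (Fin 8) ℂ)
    (h : ∀ᶠ w in 𝓝 y, stP s' (tr w) = A *ᵥ stP s w) (u : V 7) :
    dP s' (tr y) (fderiv ℝ tr y u) = A *ᵥ dP s y u := by
  obtain ⟨-, -, -, hP, -, -⟩ := (hS' s hs).1 y hy
  obtain ⟨-, -, -, hP', -, -⟩ := (hS' s' hs').1 _ hy'
  have d1 : HasFDerivAt (stP s) (dP s y) y :=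
    (hP.differentiableAt (by simp)).hasFDerivAt
  have d2 : HasFDerivAt (stP s') (dP s' (tr y)) (tr y) :=
    (hP'.differentiableAt (by simp)).hasFDerivAt
  have d3 := (d2.restrictScalars ℝ).comp y htr.hasFDerivAt
  let L : W →L[ℂ] W := LinearMap.toContinuousLinearMap (Matrix.mulVecLin A)
  have d4 := (L.hasFDerivAt.comp y d1).restrictScalars ℝ
  have e : (stP s' ∘ tr) =ᶠ[𝓝 y] (L ∘ stP s) := h
  have d5 := d3.unique (d4.congr_of_eventuallyEq e)
  exact congrArg (fun T : V 7 →L[ℝ] W => T u) d5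

theorem dz_congr {n : ℕ} {f g : V n → ℂ} {y : V n} (h : f =ᶠ[𝓝 y] g) (i : Fin n) :
    dz i f y = dz i g y := by
  rw [dz, dz, h.fderiv_eq]

theorem dzb_congr {n : ℕ} {f g : V n → ℂ} {y : V n} (h : f =ᶠ[𝓝 y] g) (i : Fin n) :
    dzb i f y = dzb i g y := by
  rw [dzb, dzb, h.fderiv_eq]

theorem chern_congr {n : ℕ} {h h' : Her n} {y : V n} (e : h =ᶠ[𝓝 y] h') (i j k l : Fin n) :
    chern h y i j k l = chern h' y i j k l := by
  have e1 : ∀ a b, (fun z => h z a b) =ᶠ[𝓝 y] (fun z => h' z a b) := fun a b =>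
    e.mono fun z hz => by simp only [hz]
  have e2 : dzb j (fun z => h z k l) =ᶠ[𝓝 y] dzb j (fun z => h' z k l) :=
    (e1 k l).eventuallyEq_nhds.mono fun z hz => dzb_congr hz j
  rw [chern, chern, dz_congr e2, e.eq_of_nhds]
  congr 1
  refine Finset.sum_congr rfl fun p _ => Finset.sum_congr rfl fun q _ => ?_
  rw [dz_congr (e1 k q), dzb_congr (e1 p l)]

end FinB

open FinB in
theorem blk_FIN (hB : St_BOOST) (hS' : St_STEREO) (hC : St_CURV) (hN : St_NONFLAT)
    (hM : St_METRIC) (hQ : St_QUOT) (hA : St_ARITH) : St_MAIN := by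
  obtain ⟨Γ, hΓ⟩ := hA
  obtain ⟨M, tM, cM, s, t2, cp, cn, mR, mC, hs, ht, htr, p0, hp0, hp0'⟩ := hQ Γ hΓ
  obtain ⟨g, hg⟩ := hM (V 7) M (fun p y => GG (s p) y) (fun p y _ u v => GG_symm _ _ _ _)
    (fun p y hy u hu => GG_pos hB hS' _ (hs p) y (ht p y hy) u hu)
    (fun p u v y hy => (GG_smooth hS' _ (hs p) y (ht p y hy) u v).contDiffWithinAt)
    (fun p q y hy hq u v => by
      obtain ⟨γ, hγ, he⟩ := htr p q y hy hq
      have hd : DifferentiableAt ℝ
          (fun w => chartAt (V 7) q ((chartAt (V 7) p).symm w)) y := by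
        have h1 := (mdifferentiable_chart (I := 𝓘(ℝ, V 7)) p).mdifferentiableAt_symm hy
        have h2 := (mdifferentiable_chart (I := 𝓘(ℝ, V 7)) q).mdifferentiableAt hq
        exact mdifferentiableAt_iff_differentiableAt.1 (h2.comp y h1)
      have hy' := ht q _ ((chartAt (V 7) q).map_source hq)
      have k := dP_compat hS' (hs p) (hs q) (ht p y hy) hd hy' γ.1 he
      rw [GG_apply, GG_apply, HH, HH, k u, k v, he.self_of_nhds, hΓ.2.1 γ hγ])
  have hco : ∀ p : M, coef g p =ᶠ[𝓝 (chartAt (V 7) p p)] hS (s p) := by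
    intro p
    filter_upwards [(chartAt (V 7) p).open_target.mem_nhds (mem_chart_target (V 7) p)] with y hy
    ext k l
    rw [← GG_coef, ← hg p y hy, ← hg p y hy]
    rfl
  refine ⟨M, tM, t2, cp, cn, cM, mR, mC, g, ?_, ?_, ?_⟩
  · intro p u v
    rw [hg p _ (mem_chart_target (V 7) p), hg p _ (mem_chart_target (V 7) p), GG_herm]
  · intro p X
    simp only [chern_congr (hco p)]
    rw [hC (s p) (hs p) _ (ht p _ (mem_chart_target (V 7) p)) X]
    simp
  · intro hF
    have h1 := hF p0 0 1 3 6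
    rw [chern_congr (hco p0), hp0, hp0'] at h1
    exact hN h1

end Pool.Agent.Lib.HSC43
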