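import Pool.Agent.Lib.HSC43.Blue

set_option autoImplicit false

/-! A short lattice vector outside a hyperplane, by Minkowski's convex body theorem for a box. -/

noncomputable section

namespace Pool.Agent.Lib.HSC43

open MeasureTheory Finset

theorem short_box {ι : Type} [Fintype ι] [DecidableEq ι] (T : (ι → ℝ) →ₗ[ℝ] (ι → ℝ))
    (hT : LinearMap.det T ≠ 0) (r : ι → ℝ) (hr : ∀ i, 0 < r i)
    (h : |LinearMap.det T| < ∏ i, r i) :
    ∃ z : ι → ℤ, z ≠ 0 ∧ ∀ i, |T (fun j => (z j : ℝ)) i| < r i := by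
  set b := Pi.basisFun ℝ ι with hb
  have hF := ZSpan.isAddFundamentalDomain' b (volume : Measure (ι → ℝ))
  have hvolF : volume (ZSpan.fundamentalDomain b) = 1 := by
    rw [hb, ZSpan.fundamentalDomain_pi_basisFun, volume_pi, Measure.pi_pi]
    simp
  set K : Set (ι → ℝ) := Set.pi Set.univ fun i => Set.Ioo (-(r i)) (r i) with hK
  have hvolK : volume K = ENNReal.ofReal (2 ^ Fintype.card ι * ∏ i, r i) := by
    rw [hK, Real.volume_pi_Ioo, ← ENNReal.ofReal_prod_of_nonneg]
    · congr 1
      have : ∀ i, r i - -(r i) = 2 * r i := fun i => by ring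
      simp only [this]
      rw [prod_mul_distrib]
      simp
    · intro i _
      have := hr i
      linarith
  have hcnt : Countable (Submodule.span ℤ (Set.range b)).toAddSubgroup := by
    change Countable (Submodule.span ℤ (Set.range b))
    infer_instance
  have hd : 0 < |LinearMap.det T| := abs_pos.2 hT
  obtain ⟨x, hx0, hx⟩ := exists_ne_zero_mem_lattice_of_measure_mul_two_pow_lt_measure
    (s := T ⁻¹' K) hF
    (by
      intro x hx i _
      have h1 := hx i (Set.mem_univ i)
      simp only [map_neg, Pi.neg_apply, Set.mem_Ioo] at h1 ⊢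
      constructor <;> linarith [h1.1, h1.2])
    ((convex_pi fun i _ => convex_Ioo _ _).linear_preimage T)
    (by
      rw [hvolF, one_mul, Measure.addHaar_preimage_linearMap _ hT, hvolK,
        Module.finrank_fintype_fun_eq_card,
        show (2 : ENNReal) ^ Fintype.card ι = ENNReal.ofReal (2 ^ Fintype.card ι) by
          rw [ENNReal.ofReal_pow (by norm_num)]; simp,
        ← ENNReal.ofReal_mul (abs_nonneg _)]
      have h2 : (0 : ℝ) < 2 ^ Fintype.card ι := by positivity
      have h3 : 0 < ∏ i, r i := prod_pos fun i _ => hr i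
      rw [ENNReal.ofReal_lt_ofReal_iff (by
        rw [abs_inv]
        positivity), abs_inv, ← div_eq_inv_mul, lt_div_iff₀ hd]
      exact mul_lt_mul_of_pos_left h h2)
  have hmem : ∀ i, ∃ m : ℤ, (m : ℝ) = (x : ι → ℝ) i := by
    intro i
    have h1 := (b.mem_span_iff_repr_mem ℤ (x : ι → ℝ)).1 x.2 i
    obtain ⟨m, hm⟩ := h1
    exact ⟨m, by simpa [hb] using hm⟩
  choose z hz using hmem
  have hxz : (fun j => (z j : ℝ)) = (x : ι → ℝ) := funext hz
  refine ⟨z, ?_, fun i => ?_⟩
  · intro h0
    apply hx0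
    apply Subtype.ext
    rw [← hxz, h0]
    funext j
    simp
  · rw [hxz]
    exact abs_lt.2 (hx i (Set.mem_univ i))

theorem blk_SHORT : St_SHORT := by
  intro ι _ _ D
  set n : ℝ := (Fintype.card ι : ℝ) with hn
  have hn0 : 0 ≤ n := Nat.cast_nonneg _
  set ε : ℝ := 1 / (n + 1) with hε
  have hε0 : 0 < ε := by positivity
  have hε1 : ε ≤ 1 := by
    rw [hε, div_le_one (by positivity)]
    linarith
  have hεn : (n + 1) * ε = 1 := by
    rw [hε]
    field_simp
  set R : ℝ := (|D| + 1) / ε ^ Fintype.card ι with hR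
  have hR0 : 0 < R := by positivity
  refine ⟨n * (R + 1) ^ 2, fun T hT hD hmin φ hφ => ?_⟩
  set e := T.equivOfDetNeZero hT with he
  have heT : ∀ y, e y = T y := fun y => rfl
  set a : ι → ℝ := fun i => φ (e.symm (Pi.single i 1)) with ha
  have hφa : ∀ x, φ x = ∑ i, T x i * a i := by
    intro x
    have h1 : x = ∑ i, T x i • e.symm (Pi.single i 1) := by
      apply e.injective
      rw [map_sum, heT]
      simp only [map_smul, LinearEquiv.apply_symm_apply]
      funext j
      simp [Finset.sum_apply, Pi.single_apply]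
    conv_lhs => rw [h1]
    rw [map_sum]
    simp [ha]
  have hne : ∃ i, a i ≠ 0 := by
    by_contra h
    push Not at h
    apply hφ
    ext1
    ext
    simp [hφa, h]
  obtain ⟨i1, hi1⟩ := hne
  obtain ⟨i0, -, hi0⟩ := exists_max_image univ (fun i => |a i|) ⟨i1, mem_univ _⟩
  have ha0 : 0 < |a i0| := (abs_pos.2 hi1).trans_le (hi0 i1 (mem_univ _))
  set r : ι → ℝ := fun i => if i = i0 then R else ε with hr
  have hr0 : ∀ i, 0 < r i := fun i => by
    simp only [hr]
    split_ifs
    · exact hR0
    · exact hε0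
  have hprod : |LinearMap.det T| < ∏ i, r i := by
    rw [← mul_prod_erase univ r (mem_univ i0)]
    have h1 : ∏ i ∈ univ.erase i0, r i = ε ^ (univ.erase i0).card := by
      rw [← prod_const]
      refine prod_congr rfl fun i hi => ?_
      simp [hr, (mem_erase.1 hi).1]
    have h2 : ε ^ Fintype.card ι ≤ ε ^ (univ.erase i0).card :=
      pow_le_pow_of_le_one hε0.le hε1 (card_le_univ _)
    have h3 : r i0 = R := by simp [hr]
    have h4 : R * ε ^ Fintype.card ι = |D| + 1 := by
      rw [hR]
      field_simp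
    rw [h1, h3]
    have h5 := mul_le_mul_of_nonneg_left h2 hR0.le
    have h6 := le_abs_self D
    linarith
  obtain ⟨z, hz0, hz⟩ := short_box T hT r hr0 hprod
  set y := T (fun j => (z j : ℝ)) with hy
  refine ⟨z, ?_, fun h0 => ?_⟩
  · have h1 : ∀ i, y i ^ 2 ≤ (R + 1) ^ 2 := by
      intro i
      have h2 : r i ≤ R + 1 := by
        simp only [hr]
        split_ifs <;> linarith
      rw [← sq_abs]
      exact pow_le_pow_left₀ (abs_nonneg _) ((hz i).le.trans h2) 2
    calc ∑ i, y i ^ 2 ≤ ∑ _i : ι, (R + 1) ^ 2 := sum_le_sum fun i _ => h1 i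
      _ = n * (R + 1) ^ 2 := by simp [hn]
  · rw [hφa, ← hy, ← add_sum_erase univ _ (mem_univ i0)] at h0
    have hk : ((univ.erase i0).card : ℝ) + 1 = n := by
      rw [hn, card_erase_of_mem (mem_univ _), card_univ]
      have : 1 ≤ Fintype.card ι := Fintype.card_pos_iff.2 ⟨i0⟩
      push_cast [this]
      ring
    have hsmall : ∀ i ∈ univ.erase i0, |y i| ≤ ε := by
      intro i hi
      have h1 := hz i
      simp only [hr, if_neg (mem_erase.1 hi).1] at h1
      exact h1.le
    set k : ℝ := ((univ.erase i0).card : ℝ) with hkdef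
    have hk0 : 0 ≤ k := Nat.cast_nonneg _
    have h1 : |y i0| * |a i0| ≤ k * ε * |a i0| := by
      rw [← abs_mul, eq_neg_of_add_eq_zero_left h0, abs_neg]
      refine (abs_sum_le_sum_abs _ _).trans ?_
      calc ∑ i ∈ univ.erase i0, |y i * a i| ≤ ∑ _i ∈ univ.erase i0, ε * |a i0| := by
            refine sum_le_sum fun i hi => ?_
            rw [abs_mul]
            exact mul_le_mul (hsmall i hi) (hi0 i (mem_univ _)) (abs_nonneg _) hε0.le
        _ = k * ε * |a i0| := by
            rw [sum_const, nsmul_eq_mul, mul_assoc]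
    have h2 : |y i0| ≤ k * ε := le_of_mul_le_mul_right h1 ha0
    have h3 : y i0 ^ 2 ≤ (k * ε) ^ 2 := by
      rw [← sq_abs]
      exact pow_le_pow_left₀ (abs_nonneg _) h2 2
    have h4 : ∑ i ∈ univ.erase i0, y i ^ 2 ≤ k * ε ^ 2 := by
      calc ∑ i ∈ univ.erase i0, y i ^ 2 ≤ ∑ _i ∈ univ.erase i0, ε ^ 2 := by
            refine sum_le_sum fun i hi => ?_
            rw [← sq_abs]
            exact pow_le_pow_left₀ (abs_nonneg _) (hsmall i hi) 2
        _ = k * ε ^ 2 := by rw [sum_const, nsmul_eq_mul]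
    have h5 := hmin z hz0
    rw [← hy, ← add_sum_erase univ _ (mem_univ i0)] at h5
    have h6 : (k + 2) * ε = 1 := by
      rw [← hεn, ← hk]
      ring
    have h7 : ((k + 2) * ε) ^ 2 = 1 := by rw [h6]; norm_num
    have h8 : 0 < ε ^ 2 := by positivity
    nlinarith [mul_nonneg hk0 h8.le]

end Pool.Agent.Lib.HSC43
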