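import Pool.Agent.Lib.HSC43.Ring
import Pool.Agent.Lib.HSC43.SHORT

set_option autoImplicit false

/-! Short frames of lattice vectors. -/

noncomputable section

namespace Pool.Agent.Lib.HSC43

open Matrix Complex
open scoped ComplexConjugate

abbrev Ix : Type := Fin 8 × Fin 4

abbrev WA : Type := Fin 8 → A

def p1 : A →+* ℂ := RingHom.fst ℂ (ℝ × ℝ)

def p2 : A →+* ℝ := (RingHom.fst ℝ ℝ).comp (RingHom.snd ℂ (ℝ × ℝ))

def p3 : A →+* ℝ := (RingHom.snd ℝ ℝ).comp (RingHom.snd ℂ (ℝ × ℝ))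

theorem A_ext {x y : A} (h1 : p1 x = p1 y) (h2 : p2 x = p2 y) (h3 : p3 x = p3 y) : x = y :=
  Prod.ext h1 (Prod.ext h2 h3)

/-- a complex octonion extended by the unit at the real places -/
def hat (a : W) : WA := fun k => (a k, e0 k, e0 k)

theorem p1_hat (a : W) : p1 ∘ hat a = a := rfl
theorem p2_hat (a : W) : p2 ∘ hat a = e0 := rfl
theorem p3_hat (a : W) : p3 ∘ hat a = e0 := rfl

theorem hat_dot {a : W} (ha : a ⬝ᵥ a = 1) : hat a ⬝ᵥ hat a = 1 := by
  apply A_ext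
  · rw [map_dot, p1_hat, ha, map_one]
  · rw [map_dot, p2_hat, e0_dot, e00, map_one]
  · rw [map_dot, p3_hat, e0_dot, e00, map_one]

theorem io_hat {a : W} (ha : star a = til a) : io ∘ hat a = til (hat a) := by
  funext k
  apply A_ext
  · exact (congrFun ha k).trans (congrFun (map_til p1 (hat a)) k).symm
  · exact (congrFun til_e0 k).symm.trans (congrFun (map_til p2 (hat a)) k).symm
  · exact (congrFun til_e0 k).symm.trans (congrFun (map_til p3 (hat a)) k).symm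

/-- real coordinates -/
def crd : WA →ₗ[ℝ] (Ix → ℝ) where
  toFun v p := ![(v p.1).1.re, (v p.1).1.im, (v p.1).2.1, (v p.1).2.2] p.2
  map_add' v w := by
    funext ⟨k, j⟩
    fin_cases j <;> simp
  map_smul' c v := by
    funext ⟨k, j⟩
    fin_cases j <;> simp

theorem crd_sum (v w : WA) (σ : Fin 4 → ℝ) :
    ∑ p : Ix, σ p.2 * crd v p * crd w p = ∑ k, (σ 0 * (v k).1.re * (w k).1.re
      + σ 1 * (v k).1.im * (w k).1.im + σ 2 * (v k).2.1 * (w k).2.1
      + σ 3 * (v k).2.2 * (w k).2.2) := by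
  rw [Fintype.sum_prod_type]
  refine Finset.sum_congr rfl fun k _ => ?_
  simp [crd, Fin.sum_univ_four]

/-- left multiplication followed by real coordinates -/
def LL (a : W) : WA →ₗ[ℝ] (Ix → ℝ) := crd ∘ₗ (omL (hat a)).restrictScalars ℝ

theorem LL_apply (a : W) (u : WA) : LL a u = crd (om (hat a) u) := rfl

/-- the positive definite quadratic form -/
def FF (a : W) (u : WA) : ℝ := ∑ p, (LL a u p) ^ 2

def nsq (x : W) : ℝ := ∑ k, ‖x k‖ ^ 2

theorem nsq_nonneg (x : W) : 0 ≤ nsq x := Finset.sum_nonneg fun k _ => by positivity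

theorem dot_self_nonneg (x : Fin 8 → ℝ) : 0 ≤ x ⬝ᵥ x :=
  Finset.sum_nonneg fun _ _ => mul_self_nonneg _

theorem crd_sq (v : WA) :
    ∑ p, (crd v p) ^ 2 = nsq (p1 ∘ v) + p2 (v ⬝ᵥ v) + p3 (v ⬝ᵥ v) := by
  have h := crd_sum v v fun _ => 1
  simp only [one_mul, ← sq] at h
  rw [h, map_dot, map_dot, nsq, dotProduct, dotProduct, ← Finset.sum_add_distrib,
    ← Finset.sum_add_distrib]
  refine Finset.sum_congr rfl fun k _ => ?_
  have : ‖(p1 ∘ v) k‖ ^ 2 = (v k).1.re ^ 2 + (v k).1.im ^ 2 := by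
    rw [Complex.sq_norm, normSq_apply, sq, sq]; rfl
  rw [this, sq (v k).2.1, sq (v k).2.2]
  rfl

theorem FF_eq {a : W} (ha : a ⬝ᵥ a = 1) (u : WA) :
    FF a u = nsq (om a (p1 ∘ u)) + p2 (u ⬝ᵥ u) + p3 (u ⬝ᵥ u) := by
  rw [FF]
  simp only [LL_apply]
  rw [crd_sq, om_dot_left, hat_dot ha, one_mul, map_om, p1_hat]

theorem p2_nonneg (u : WA) : 0 ≤ p2 (u ⬝ᵥ u) := by rw [map_dot]; exact dot_self_nonneg _

theorem p3_nonneg (u : WA) : 0 ≤ p3 (u ⬝ᵥ u) := by rw [map_dot]; exact dot_self_nonneg _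

theorem norm_dot_le (x : W) : ‖x ⬝ᵥ x‖ ≤ nsq x :=
  (norm_sum_le _ _).trans (le_of_eq (Finset.sum_congr rfl fun k _ => by rw [norm_mul, sq]))

theorem dot_mem {u v : WA} (hu : ∀ k, u k ∈ RR) (hv : ∀ k, v k ∈ RR) : u ⬝ᵥ v ∈ RR :=
  sum_mem fun k _ => mul_mem (hu k) (hv k)

theorem one_le_FF {a : W} (ha : a ⬝ᵥ a = 1) {u : WA} (hu : ∀ k, u k ∈ RR) (h0 : u ≠ 0) :
    1 ≤ FF a u := by
  obtain ⟨k, hk⟩ := Function.ne_iff.1 h0
  obtain ⟨n, hn, -, hn0⟩ := norm_RR (hu k)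
  have h1 : (u k).2.1 ≠ 0 := by
    intro h
    rw [nn_apply, h] at hn
    exact hn0 hk (by exact_mod_cast (by simpa using hn.symm : (n : ℝ) = 0))
  have h2 : 0 < p2 (u ⬝ᵥ u) := by
    rw [map_dot]
    exact Finset.sum_pos' (fun k _ => mul_self_nonneg _)
      ⟨k, Finset.mem_univ _, mul_self_pos.2 h1⟩
  obtain ⟨n', hn', -, hn0'⟩ := norm_RR (dot_mem hu hu)
  have h3 : n' ≠ 0 := hn0' fun h => by rw [h, map_zero] at h2; exact lt_irrefl _ h2
  have h4 : ‖p1 (u ⬝ᵥ u)‖ ≤ nsq (om a (p1 ∘ u)) := by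
    have := norm_dot_le (om a (p1 ∘ u))
    rwa [om_dot_left, ha, one_mul, ← map_dot] at this
  have h5 : nn (u ⬝ᵥ u) = ‖p1 (u ⬝ᵥ u)‖ ^ 2 * p2 (u ⬝ᵥ u) * p3 (u ⬝ᵥ u) := by
    rw [nn_apply, Complex.sq_norm]; rfl
  have h6 := p3_nonneg u
  have h7 : (1 : ℝ) ≤ n' := by
    have : (0 : ℝ) ≤ n' := by rw [← hn', h5]; positivity
    have : 0 ≤ n' := by exact_mod_cast this
    exact_mod_cast (by omega : 1 ≤ n')
  rw [FF_eq ha]
  by_contra hlt
  rw [not_le] at hlt
  have h8 := nsq_nonneg (om a (p1 ∘ u))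
  have h9 : ‖p1 (u ⬝ᵥ u)‖ ^ 2 ≤ 1 := pow_le_one₀ (norm_nonneg _) (by linarith)
  have h10 : p2 (u ⬝ᵥ u) * p3 (u ⬝ᵥ u) < 1 :=
    mul_lt_one_of_nonneg_of_lt_one_left h2.le (by linarith) (by linarith)
  have h11 := mul_nonneg h2.le h6
  rw [← hn', h5, mul_assoc] at h7
  nlinarith

/-- real combinations of the lattice basis -/
def EE : (Ix → ℝ) →ₗ[ℝ] WA where
  toFun z k := ev fun j => z (k, j)
  map_add' z w := by funext k; exact ev.map_add _ _
  map_smul' c z := by funext k; exact ev.map_smul c _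

/-- lattice vectors -/
def ZZ (z : Ix → ℤ) : WA := fun k => zev fun j => z (k, j)

theorem EE_int (z : Ix → ℤ) : EE (fun p => (z p : ℝ)) = ZZ z :=
  funext fun k => ev_int fun j => z (k, j)

theorem ZZ_mem (z : Ix → ℤ) (k : Fin 8) : ZZ z k ∈ RR := zev_mem _

theorem EE_eq_zero {z : Ix → ℝ} (h : EE z = 0) : z = 0 :=
  funext fun p => congrFun (ev_eq_zero (a := fun j => z (p.1, j)) (congrFun h p.1)) p.2

def TT (a : W) : (Ix → ℝ) →ₗ[ℝ] (Ix → ℝ) := LL a ∘ₗ EE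

theorem crd_eq_zero {v : WA} (h : crd v = 0) : v = 0 := by
  funext k
  exact Prod.ext (Complex.ext (congrFun h (k, 0)) (congrFun h (k, 1)))
    (Prod.ext (congrFun h (k, 2)) (congrFun h (k, 3)))

theorem det_TT_ne {a : W} (ha : a ⬝ᵥ a = 1) : LinearMap.det (TT a) ≠ 0 := by
  refine (LinearMap.isUnit_det _ ((LinearMap.isUnit_iff_ker_eq_bot _).2 ?_)).ne_zero
  refine LinearMap.ker_eq_bot'.2 fun z hz => EE_eq_zero ?_
  have h1 : om (hat a) (EE z) = 0 := crd_eq_zero hz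
  have h2 := om_til_om (hat a) (EE z)
  rw [h1, hat_dot ha, one_smul, ← omL_apply, map_zero] at h2
  exact h2.symm

theorem det_TT_le : ∃ B : ℝ, ∀ a : W, a ⬝ᵥ a = 1 → |LinearMap.det (TT a)| ≤ B := by
  let σ : Fin 4 → ℝ := ![1, -1, 1, 1]
  let lam : A → ℝ := fun r => r.1.re + r.2.1 + r.2.2
  let G : Matrix Ix Ix ℝ := Matrix.of fun p q => lam (EE (Pi.single p 1) ⬝ᵥ EE (Pi.single q 1))
  refine ⟨|G.det| + 1, fun a ha => ?_⟩
  have h1 : ∀ v w : WA, ∑ p : Ix, σ p.2 * crd v p * crd w p = lam (v ⬝ᵥ w) := by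
    intro v w
    rw [crd_sum]
    simp only [lam, dotProduct, Prod.fst_sum, Prod.snd_sum, re_sum, ← Finset.sum_add_distrib]
    refine Finset.sum_congr rfl fun k _ => ?_
    simp [σ]; ring
  have h2 : (LinearMap.toMatrix' (TT a))ᵀ * Matrix.diagonal (fun p : Ix => σ p.2)
      * LinearMap.toMatrix' (TT a) = G := by
    ext p q
    have := h1 (om (hat a) (EE (Pi.single p 1))) (om (hat a) (EE (Pi.single q 1)))
    rw [om_dot_left, hat_dot ha, one_mul] at this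
    rw [Matrix.mul_apply]
    simp only [Matrix.mul_diagonal, Matrix.transpose_apply, LinearMap.toMatrix'_apply, G,
      Matrix.of_apply]
    rw [← this]
    refine Finset.sum_congr rfl fun r _ => ?_
    rw [mul_comm (σ r.2)]
    rfl
  have h3 := congrArg (fun M : Matrix Ix Ix ℝ => |M.det|) h2
  have h4 : |∏ p : Ix, σ p.2| = 1 := by
    rw [Finset.abs_prod]
    refine Finset.prod_eq_one fun p _ => ?_
    obtain ⟨k, j⟩ := p
    fin_cases j <;> simp [σ]
  simp only [Matrix.det_mul, Matrix.det_transpose, Matrix.det_diagonal, abs_mul, h4,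
    LinearMap.det_toMatrix'] at h3
  nlinarith [sq_nonneg (|LinearMap.det (TT a)| - 1), abs_nonneg G.det]

theorem exists_frame : ∃ C : ℝ, ∀ a : W, a ⬝ᵥ a = 1 → ∀ n : ℕ, n ≤ 8 →
    ∃ z : Fin n → Ix → ℤ, (∀ i, FF a (ZZ (z i)) ≤ C) ∧
      LinearIndependent ℂ fun i => p1 ∘ ZZ (z i) := by
  obtain ⟨B, hB⟩ := det_TT_le
  obtain ⟨C, hC⟩ := blk_SHORT Ix B
  refine ⟨C, fun a ha n => ?_⟩
  have hT : ∀ z : Ix → ℤ, ∑ i, (TT a (fun j => (z j : ℝ)) i) ^ 2 = FF a (ZZ z) := fun z => by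
    rw [← EE_int]; rfl
  have hC' := hC (TT a) (det_TT_ne ha) (hB a ha) fun z hz => by
    rw [hT]
    refine one_le_FF ha (ZZ_mem z) fun h => hz ?_
    rw [← EE_int] at h
    funext p
    exact Int.cast_eq_zero.1 (congrFun (EE_eq_zero h) p)
  induction n with
  | zero => exact fun _ => ⟨fun _ _ => 0, fun i => i.elim0, linearIndependent_empty_type⟩
  | succ n ih =>
    intro hn
    obtain ⟨z, hz, hl⟩ := ih (by omega)
    have hlt : Submodule.span ℂ (Set.range fun i => p1 ∘ ZZ (z i)) < ⊤ := by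
      refine Submodule.lt_top_of_finrank_lt_finrank ((finrank_range_le_card _).trans_lt ?_)
      simp; omega
    obtain ⟨ψ, hψ, hψ0⟩ := Submodule.exists_dual_map_eq_bot_of_lt_top hlt inferInstance
    let q : WA →ₗ[ℝ] W :=
      { toFun := fun v => p1 ∘ v, map_add' := fun _ _ => rfl, map_smul' := fun _ _ => rfl }
    obtain ⟨y, hy, hy0⟩ := hC' (reLm ∘ₗ ψ.restrictScalars ℝ ∘ₗ q ∘ₗ EE) (by
      obtain ⟨w, hw⟩ := DFunLike.ne_iff.1 hψ
      intro h
      let w' : W := (ψ w)⁻¹ • w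
      have h1 := DFunLike.congr_fun h fun p => ![(w' p.1).re, (w' p.1).im / th, 0, 0] p.2
      have h2 : q (EE fun p => ![(w' p.1).re, (w' p.1).im / th, 0, 0] p.2) = w' := by
        funext k
        have hth : th ≠ 0 := by have := one_le_th; positivity
        apply Complex.ext
        · exact (ev_re ![(w' k).re, (w' k).im / th, 0, 0]).trans (by simp)
        · exact (ev_im ![(w' k).re, (w' k).im / th, 0, 0]).trans (by simp [hth])
      simp only [LinearMap.comp_apply, h2, LinearMap.restrictScalars_apply, w', map_smul,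
        smul_eq_mul, LinearMap.zero_apply] at h1
      rw [inv_mul_cancel₀ hw] at h1
      simp at h1)
    refine ⟨Fin.cons y z, fun i => ?_, ?_⟩
    · refine Fin.cases ?_ (fun i => ?_) i
      · rw [← hT]; exact hy
      · exact hz i
    · have : (fun i => p1 ∘ ZZ ((Fin.cons y z : Fin (n + 1) → Ix → ℤ) i)) =
          Fin.cons (p1 ∘ ZZ y) fun i => p1 ∘ ZZ (z i) := by
        funext i
        refine Fin.cases rfl (fun i => rfl) i
      rw [this, linearIndependent_finCons]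
      refine ⟨hl, fun hm => hy0 ?_⟩
      have h3 : ψ (p1 ∘ ZZ y) = 0 := by
        rw [← Submodule.mem_bot ℂ, ← hψ0]
        exact Submodule.mem_map_of_mem hm
      simp only [LinearMap.comp_apply, EE_int, LinearMap.restrictScalars_apply]
      change reLm (ψ (p1 ∘ ZZ y)) = 0
      rw [h3, map_zero]

end Pool.Agent.Lib.HSC43
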