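import Pool.Agent.Lib.HSC43.Frame

set_option autoImplicit false

/-! The congruence group: invariance, free and properly discontinuous action. -/

noncomputable section

namespace Pool.Agent.Lib.HSC43

open Matrix Complex
open scoped ComplexConjugate

abbrev MA : Type := Matrix (Fin 8) (Fin 8) A

abbrev MC : Type := Matrix (Fin 8) (Fin 8) ℂ

/-- matrices with integer entries -/
def Int8 (G : MA) : Prop := ∀ k l, G k l ∈ RR

theorem Int8.mul {G H : MA} (hG : Int8 G) (hH : Int8 H) : Int8 (G * H) := fun k l => by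
  rw [Matrix.mul_apply]
  exact sum_mem fun j _ => mul_mem (hG k j) (hH j l)

theorem Int8.mulVec {G : MA} {u : WA} (hG : Int8 G) (hu : ∀ k, u k ∈ RR) (k : Fin 8) :
    (G *ᵥ u) k ∈ RR := dot_mem (hG k) hu

/-- membership in the congruence group of level `m` -/
structure Good (m : ℕ) (G : MA) : Prop where
  cong : ∃ Δ : MA, Int8 Δ ∧ G = 1 + m • Δ
  orth : Gᵀ * G = 1
  quart : ∀ x u y v : W,
    Sq (G.map p1 *ᵥ x) (G.map p1 *ᵥ u) (G.map p1 *ᵥ y) (G.map p1 *ᵥ v) = Sq x u y v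

theorem map_mul_p1 (G H : MA) : (G * H).map p1 = G.map p1 * H.map p1 := Matrix.map_mul

theorem map_one_p1 : (1 : MA).map p1 = 1 := Matrix.map_one _ (map_zero _) (map_one _)

theorem map_mulVec_p1 (G : MA) (u : WA) : p1 ∘ (G *ᵥ u) = G.map p1 *ᵥ (p1 ∘ u) :=
  funext fun k => RingHom.map_mulVec p1 G u k

theorem Good.orth' {m : ℕ} {G : MA} (h : Good m G) : G * Gᵀ = 1 := mul_eq_one_comm.1 h.orth

theorem Good.orth1 {m : ℕ} {G : MA} (h : Good m G) : (G.map p1)ᵀ * G.map p1 = 1 := by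
  rw [← Matrix.transpose_map, ← map_mul_p1, h.orth, map_one_p1]

theorem Good.orth1' {m : ℕ} {G : MA} (h : Good m G) : G.map p1 * (G.map p1)ᵀ = 1 :=
  mul_eq_one_comm.1 h.orth1

theorem dot_orth {R : Type} [CommRing R] {G : Matrix (Fin 8) (Fin 8) R} (h : Gᵀ * G = 1)
    (u v : Fin 8 → R) : (G *ᵥ u) ⬝ᵥ (G *ᵥ v) = u ⬝ᵥ v := by
  rw [dotProduct_mulVec, vecMul_mulVec, h, vecMul_one]

theorem good_one (m : ℕ) : Good m 1 :=
  ⟨⟨0, fun _ _ => zero_mem _, by simp⟩, by simp,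
    fun x u y v => by simp only [map_one_p1, one_mulVec]⟩

theorem Good.mul {m : ℕ} {G H : MA} (hG : Good m G) (hH : Good m H) : Good m (G * H) := by
  obtain ⟨Δ, h1, e1⟩ := hG.cong
  obtain ⟨Δ', h2, e2⟩ := hH.cong
  refine ⟨⟨Δ + Δ' + m • (Δ * Δ'), fun k l => ?_, ?_⟩, ?_, fun x u y v => ?_⟩
  · exact add_mem (add_mem (h1 k l) (h2 k l)) (nsmul_mem (h1.mul h2 k l) m)
  · rw [e1, e2]
    simp only [add_mul, mul_add, one_mul, mul_one, smul_add, smul_mul_assoc, mul_smul_comm]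
    abel
  · rw [transpose_mul, mul_assoc, ← mul_assoc Gᵀ, hG.orth, one_mul, hH.orth]
  · simp only [map_mul_p1, ← mulVec_mulVec, hG.quart, hH.quart]

theorem Good.tr {m : ℕ} {G : MA} (hG : Good m G) : Good m Gᵀ := by
  obtain ⟨Δ, h1, e1⟩ := hG.cong
  refine ⟨⟨Δᵀ, fun k l => h1 l k, ?_⟩, hG.orth', fun x u y v => ?_⟩
  · rw [e1, transpose_add, transpose_one, transpose_smul]
  · rw [← hG.quart]
    simp only [Matrix.transpose_map, mulVec_mulVec, hG.orth1', one_mulVec]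

theorem Good.int8 {m : ℕ} {G : MA} (hG : Good m G) : Int8 G := by
  obtain ⟨Δ, h1, e1⟩ := hG.cong
  intro k l
  rw [e1]
  refine add_mem ?_ (nsmul_mem (h1 k l) m)
  rw [Matrix.one_apply]
  split_ifs
  · exact one_mem _
  · exact zero_mem _

/-- the congruence group -/
def Gam (m : ℕ) : Subgroup MCˣ where
  carrier := {γ | ∃ G, Good m G ∧ G.map p1 = γ.1}
  mul_mem' := by
    rintro γ γ' ⟨G, hG, e⟩ ⟨H, hH, e'⟩
    exact ⟨G * H, hG.mul hH, by rw [map_mul_p1, e, e']; rfl⟩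
  one_mem' := ⟨1, good_one m, map_one_p1⟩
  inv_mem' := by
    rintro γ ⟨G, hG, e⟩
    refine ⟨Gᵀ, hG.tr, ?_⟩
    rw [Matrix.transpose_map]
    exact (Units.inv_eq_of_mul_eq_one_left (by rw [← e]; exact hG.orth1)).symm

/-- the metric as a real number -/
theorem Sq_boost {x a : W} (h : ∀ u v : W, Sq x u x v = om a u ⬝ᵥ star (om a v)) (u : W) :
    Sq x u x u = (nsq (om a u) : ℝ) := by rw [h, dot_star_eq]; rfl

theorem nsq_inv {m : ℕ} {G : MA} (hG : Good m G) {x a b : W}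
    (ha : ∀ u v : W, Sq x u x v = om a u ⬝ᵥ star (om a v))
    (hb : ∀ u v : W, Sq (G.map p1 *ᵥ x) u (G.map p1 *ᵥ x) v = om b u ⬝ᵥ star (om b v)) (u : W) :
    nsq (om b (G.map p1 *ᵥ u)) = nsq (om a u) := by
  have := hG.quart x u x u
  rw [Sq_boost ha, Sq_boost hb] at this
  exact_mod_cast this

theorem FF_sub (a : W) (u v : WA) : FF a (u - v) ≤ 2 * FF a u + 2 * FF a v := by
  simp only [FF, map_sub, Finset.mul_sum, ← Finset.sum_add_distrib, Pi.sub_apply]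
  exact Finset.sum_le_sum fun p _ => by nlinarith [sq_nonneg (LL a u p + LL a v p)]

theorem FF_nsmul (a : W) (m : ℕ) (u : WA) : FF a (m • u) = m ^ 2 * FF a u := by
  rw [FF, FF, map_nsmul, Finset.mul_sum]
  exact Finset.sum_congr rfl fun p _ => by rw [Pi.smul_apply, nsmul_eq_mul, mul_pow]

/-- the matrix whose columns are the vectors of a frame -/
def UU (z : Fin 8 → Ix → ℤ) : MA := Matrix.of fun k i => ZZ (z i) k

theorem UU_int (z : Fin 8 → Ix → ℤ) : Int8 (UU z) := fun k i => ZZ_mem (z i) k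

theorem UU_unit {z : Fin 8 → Ix → ℤ} (h : LinearIndependent ℂ fun i => p1 ∘ ZZ (z i)) :
    IsUnit ((UU z).map p1) := linearIndependent_cols_iff_isUnit.1 h

theorem free {C : ℝ} {m : ℕ} (hm : 4 * C < m ^ 2)
    (hC : ∀ a : W, a ⬝ᵥ a = 1 → ∃ z : Fin 8 → Ix → ℤ, (∀ i, FF a (ZZ (z i)) ≤ C) ∧
      LinearIndependent ℂ fun i => p1 ∘ ZZ (z i))
    {G : MA} (hG : Good m G) {x : W} (hx : x ⬝ᵥ x = 1) (h : G.map p1 *ᵥ x = x) :
    G.map p1 = 1 := by
  obtain ⟨a, ha, -, hb⟩ := blk_BOOST x hx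
  obtain ⟨z, hz, hl⟩ := hC a ha
  obtain ⟨Δ, h1, e1⟩ := hG.cong
  have h2 : ∀ i, G *ᵥ ZZ (z i) = ZZ (z i) := by
    intro i
    have h3 : FF a (G *ᵥ ZZ (z i)) = FF a (ZZ (z i)) := by
      rw [FF_eq ha, FF_eq ha, dot_orth hG.orth, map_mulVec_p1,
        nsq_inv hG hb (by rw [h]; exact hb)]
    have h4 : G *ᵥ ZZ (z i) - ZZ (z i) = m • (Δ *ᵥ ZZ (z i)) := by
      rw [e1, add_mulVec, one_mulVec, smul_mulVec, add_sub_cancel_left]
    have h5 := FF_sub a (G *ᵥ ZZ (z i)) (ZZ (z i))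
    rw [h3, h4, FF_nsmul] at h5
    have h6 : Δ *ᵥ ZZ (z i) = 0 := by
      by_contra hne
      have := one_le_FF ha (h1.mulVec (ZZ_mem (z i))) hne
      nlinarith [hz i, sq_nonneg (m : ℝ)]
    rw [h6, smul_zero] at h4
    exact sub_eq_zero.1 h4
  have h7 : G * UU z = UU z := by
    ext k i : 1
    exact congrFun (h2 i) k
  have h8 := congrArg (fun M : MA => M.map p1) h7
  simp only [map_mul_p1] at h8
  exact (UU_unit hl).mul_right_cancel (by rw [h8, one_mul])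

theorem om_dot_polar {R : Type} [CommRing R] (p p' x y : Fin 8 → R) :
    om p x ⬝ᵥ om p' y + om p' x ⬝ᵥ om p y = 2 * (p ⬝ᵥ p') * (x ⬝ᵥ y) := by
  have := om_dot_left (p + p') x y
  rw [om_add_left, om_add_left, add_dotProduct, dotProduct_add, dotProduct_add, om_dot_left,
    om_dot_left, add_dotProduct, dotProduct_add, dotProduct_add, dotProduct_comm p' p] at this
  linear_combination this

theorem nsq_om_le (p v : W) : nsq (om p v) ≤ 2 * nsq p * nsq v := by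
  have h := om_dot_polar p (star p) v (star v)
  have h2 : om p (star v) = star (om (star p) v) := by rw [star_om, star_star]
  rw [← star_om, h2, dot_star_eq, dot_star_eq, dot_star_eq, dot_star_eq] at h
  have h3 : nsq (om p v) + nsq (om (star p) v) = 2 * nsq p * nsq v := by
    unfold nsq
    exact_mod_cast h
  linarith [nsq_nonneg (om (star p) v)]

theorem om_e0' {R : Type} [CommRing R] (x : Fin 8 → R) : om x e0 = x := by
  apply ext8 <;> simp only [om0, om1, om2, om3, om4, om5, om6, om7, e00, e01, e02, e03,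
    e04, e05, e06, e07] <;> ring

theorem nsq_boost {x a : W} (h : ∀ u v : W, Sq x u x v = om a u ⬝ᵥ star (om a v)) :
    nsq a = nsq x := by
  have h1 := Sq_boost h e0
  rw [om_e0', Sq, star_e0, Qf_symm, Qf_of_cur cur_e0, dot_star_eq] at h1
  unfold nsq at *
  exact_mod_cast h1.symm

theorem nsq_star (x : W) : nsq (star x) = nsq x := by simp [nsq]

theorem nsq_le (x : W) : nsq x ≤ 8 * ‖x‖ ^ 2 := by
  have : ∀ k, ‖x k‖ ^ 2 ≤ ‖x‖ ^ 2 := fun k =>
    pow_le_pow_left₀ (norm_nonneg _) (norm_le_pi_norm x k) 2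
  exact (Finset.sum_le_sum fun k _ => this k).trans (by simp)

theorem le_nsq (x : W) (k : Fin 8) : ‖x k‖ ^ 2 ≤ nsq x :=
  Finset.single_le_sum (f := fun k => ‖x k‖ ^ 2) (fun k _ => by positivity) (Finset.mem_univ k)

theorem le_of_sq_le {t C : ℝ} (h : t ^ 2 ≤ C) : t ≤ C + 1 := by nlinarith [sq_nonneg (t - 1)]

theorem abs_le_of_dot {v : Fin 8 → ℝ} {C : ℝ} (h : v ⬝ᵥ v ≤ C) (k : Fin 8) : |v k| ≤ C + 1 := by
  apply le_of_sq_le
  rw [sq_abs, sq]
  exact (Finset.single_le_sum (f := fun k => v k * v k) (fun k _ => mul_self_nonneg _)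
    (Finset.mem_univ k)).trans h

theorem norm_A_le {v : WA} {C : ℝ} (h1 : nsq (p1 ∘ v) ≤ C) (h2 : p2 (v ⬝ᵥ v) ≤ C)
    (h3 : p3 (v ⬝ᵥ v) ≤ C) (k : Fin 8) : ‖v k‖ ≤ C + 1 := by
  rw [map_dot] at h2 h3
  exact norm_prod_le_iff.2 ⟨le_of_sq_le ((le_nsq _ k).trans h1),
    norm_prod_le_iff.2 ⟨abs_le_of_dot h2 k, abs_le_of_dot h3 k⟩⟩

theorem proper (m : ℕ) (B : ℝ) :
    {γ | γ ∈ Gam m ∧ ∃ x : W, x ⬝ᵥ x = 1 ∧ ‖x‖ ≤ B ∧ ‖γ.1 *ᵥ x‖ ≤ B}.Finite := by
  have hf : {G : MA | ∀ k l, G k l ∈ {r : A | r ∈ RR ∧ ‖r‖ ≤ 256 * B ^ 4 + 1 + 1}}.Finite :=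
    Set.Finite.pi' fun _ => Set.Finite.pi' fun _ => finite_RR _
  refine Set.Finite.of_finite_image (f := fun γ => γ.1) ((hf.image fun G => G.map p1).subset ?_)
    Units.val_injective.injOn
  rintro _ ⟨γ, ⟨⟨G, hG, e⟩, x, hx, h1, h2⟩, rfl⟩
  refine ⟨G, fun k l => ⟨hG.int8 k l, ?_⟩, e⟩
  rw [← e] at h2
  obtain ⟨a, ha, -, ha'⟩ := blk_BOOST x hx
  obtain ⟨b, hb, hb1, hb'⟩ := blk_BOOST (G.map p1 *ᵥ x) (by rw [dot_orth hG.orth1, hx])
  have hB : 0 ≤ B := (norm_nonneg _).trans h1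
  have h3 : nsq a ≤ 8 * B ^ 2 := by
    rw [nsq_boost ha']
    exact (nsq_le _).trans (by gcongr)
  have h4 : nsq (til b) ≤ 8 * B ^ 2 := by
    rw [← hb1, nsq_star, nsq_boost hb']
    exact (nsq_le _).trans (by gcongr)
  have h5 : (G *ᵥ Pi.single l 1) ⬝ᵥ (G *ᵥ Pi.single l 1) = 1 := by
    rw [dot_orth hG.orth]; simp
  have h6 : nsq (p1 ∘ (Pi.single l 1 : WA)) = 1 := by
    rw [nsq, Finset.sum_eq_single l] <;> simp +contextual [Pi.single_apply]
  have h7 : nsq (p1 ∘ (G *ᵥ Pi.single l 1)) ≤ 256 * B ^ 4 := by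
    rw [map_mulVec_p1]
    have h8 := nsq_om_le (til b) (om b (G.map p1 *ᵥ (p1 ∘ (Pi.single l 1 : WA))))
    rw [om_til_om, hb, one_smul, nsq_inv hG ha' hb'] at h8
    have h9 := nsq_om_le a (p1 ∘ (Pi.single l 1 : WA))
    rw [h6] at h9
    have h10 := mul_le_mul h4 (h9.trans (by linarith : 2 * nsq a * 1 ≤ 16 * B ^ 2))
      (nsq_nonneg _) (by positivity)
    nlinarith
  have h11 : (0 : ℝ) ≤ 256 * B ^ 4 := by positivity
  have := norm_A_le (C := 256 * B ^ 4 + 1) (v := G *ᵥ Pi.single l 1) (by linarith)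
    (by rw [h5, map_one]; linarith) (by rw [h5, map_one]; linarith) k
  simpa using this

end Pool.Agent.Lib.HSC43
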