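import Pool.Agent.Lib.HSC43.Blue

set_option autoImplicit false

/-! A Riemannian metric from compatible coefficients in all charts. -/

noncomputable section

namespace Pool.Agent.Lib.HSC43

open Pool.Agent.Lib.MP_40b2af_gt Bundle
open scoped Manifold ContDiff Topology

section Aux

variable {E : Type} [NormedAddCommGroup E] [NormedSpace ℝ E] [FiniteDimensional ℝ E]

/-- the continuous version of a bilinear form -/
def mtB (B : E →ₗ[ℝ] E →ₗ[ℝ] ℝ) : E →L[ℝ] E →L[ℝ] ℝ :=
  LinearMap.toContinuousLinearMap
    ((LinearMap.toContinuousLinearMap : (E →ₗ[ℝ] ℝ) ≃ₗ[ℝ] (E →L[ℝ] ℝ)).toLinearMap ∘ₗ B)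

theorem mtB_apply (B : E →ₗ[ℝ] E →ₗ[ℝ] ℝ) (u v : E) : mtB B u v = B u v := rfl

theorem mt_bounded (B : E →L[ℝ] E →L[ℝ] ℝ) (hB : ∀ u, u ≠ 0 → 0 < B u u) :
    Bornology.IsVonNBounded ℝ {v : E | B v v < 1} := by
  haveI : ProperSpace E := FiniteDimensional.proper_real E
  rw [NormedSpace.isVonNBounded_iff']
  rcases (Metric.sphere (0 : E) 1).eq_empty_or_nonempty with h | h
  · refine ⟨0, fun v _ => ?_⟩
    by_contra hv
    have : (‖v‖⁻¹ • v) ∈ Metric.sphere (0 : E) 1 := by
      simp [norm_smul, inv_mul_cancel₀ (not_le.1 hv).ne']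
    rw [h] at this
    exact this
  obtain ⟨u, hu, hmin⟩ := (isCompact_sphere (0 : E) 1).exists_isMinOn h
    (f := fun v => B v v) (by fun_prop)
  have hc : 0 < B u u := hB u (by rintro rfl; simp at hu)
  refine ⟨max 1 (B u u)⁻¹, fun v hv => ?_⟩
  by_contra hlt
  rw [not_le, max_lt_iff] at hlt
  have h0 : 0 < ‖v‖ := by linarith [hlt.1]
  have h1 : (‖v‖⁻¹ • v) ∈ Metric.sphere (0 : E) 1 := by
    simp [norm_smul, inv_mul_cancel₀ h0.ne']
  have h2 : B u u ≤ ‖v‖⁻¹ * (‖v‖⁻¹ * B v v) := by simpa using hmin h1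
  have h3 : B v v < 1 := hv
  rw [inv_lt_comm₀ hc h0] at hlt
  have h4 : ‖v‖⁻¹ < 1 := inv_lt_one_of_one_lt₀ hlt.1
  have h5 := inv_pos.2 h0
  nlinarith [mul_pos h5 h5]

end Aux

section Charts

variable {E : Type} [NormedAddCommGroup E] [NormedSpace ℝ E]
  {M : Type} [TopologicalSpace M] [ChartedSpace E M] [IsManifold 𝓘(ℝ, E) ∞ M]

set_option backward.isDefEq.respectTransparency false in
theorem mt_mfderiv {p : M} {x : E} (hp : x ∈ (chartAt E p).target) (v : E) :
    mfderiv 𝓘(ℝ, E) 𝓘(ℝ, E) (chartAt E p).symm x v =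
      fderiv ℝ (fun w => chartAt E ((chartAt E p).symm x) ((chartAt E p).symm w)) x v := by
  have := mdifferentiableAt_atlas_symm (I := 𝓘(ℝ, E)) (chart_mem_atlas E p) hp
  simp only [mfderiv, if_pos this, mfld_simps, fderivWithin_univ]
  rfl

set_option backward.isDefEq.respectTransparency false in
theorem mt_triv_symm {p q : M} (hq : q ∈ (chartAt E p).source) (v : E) :
    (trivializationAt E (TangentSpace 𝓘(ℝ, E)) p).symm q v =
      fderiv ℝ (fun w => chartAt E q ((chartAt E p).symm w)) (chartAt E p q) v := by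
  have := TangentBundle.symmL_trivializationAt_eq_core (I := 𝓘(ℝ, E)) hq
  have h2 := DFunLike.congr_fun this v
  rw [Trivialization.symmL_apply _ (by simpa using hq)] at h2
  simp only [tangentBundleCore_coordChange, mfld_simps, fderivWithin_univ] at h2
  exact h2

end Charts

set_option backward.isDefEq.respectTransparency false in
theorem blk_METRIC : St_METRIC := by
  intro E _ _ _ M _ _ _ G hsym hpos hsm hcomp
  have hc : ∀ q : M, chartAt E q q ∈ (chartAt E q).target := fun q =>
    (chartAt E q).map_source (mem_chart_source E q)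
  let g : RMetric E M :=
    { inner := fun q => mtB (E := E) (G q (chartAt E q q))
      symm := fun q v w => hsym q _ (hc q) v w
      pos := fun q v hv => hpos q _ (hc q) v hv
      isVonNBounded := fun q => mt_bounded (E := E) (mtB (E := E) (G q (chartAt E q q))) (hpos q _ (hc q))
      contMDiff := by
        intro p
        rw [contMDiffAt_section]
        have h1 : ContMDiffAt 𝓘(ℝ, E) 𝓘(ℝ, E →L[ℝ] E →L[ℝ] ℝ) ∞
            (fun q => mtB (G p (chartAt E p q))) p := by
          have h3 : ContDiffOn ℝ ∞ (fun x => mtB (G p x)) (chartAt E p).target :=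
            contDiffOn_clm_apply.2 fun u => contDiffOn_clm_apply.2 fun v => hsm p u v
          have h2 : ContDiffAt ℝ ∞ (fun x => mtB (G p x)) (chartAt E p p) :=
            h3.contDiffAt ((chartAt E p).open_target.mem_nhds (hc p))
          exact h2.contMDiffAt.comp p ((contMDiffOn_chart _ (mem_chart_source _ p)).contMDiffAt
            (chart_source_mem_nhds _ p))
        refine h1.congr_of_eventuallyEq ?_
        filter_upwards [chart_source_mem_nhds E p] with q hq
        ext v w
        have hl := (chartAt E p).left_inv hq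
        rw [hom_trivializationAt_apply]
        dsimp only
        rw [inCoordinates_apply_eq₂ hq hq (by simp), mt_triv_symm hq, mt_triv_symm hq]
        have h4 := hcomp p q _ ((chartAt E p).map_source hq)
          (by rw [hl]; exact mem_chart_source _ _) v w
        rw [hl] at h4
        refine Eq.trans ?_ h4.symm
        simp
        rfl }
  refine ⟨g, fun p y hy u v => ?_⟩
  rw [gc, mt_mfderiv hy, mt_mfderiv hy,
    hcomp p ((chartAt E p).symm y) y hy (mem_chart_source _ _)]
  rfl

end Pool.Agent.Lib.HSC43
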