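import Pool.Agent.Lib.HSC43.Blue

set_option autoImplicit false

/-! The quotient of the complex quadric by a free, properly discontinuous, cocompact group. -/

noncomputable section

namespace Pool.Agent.Lib.HSC43

open Matrix Pool.Agent.Lib.MP_40b2af_gt
open scoped Manifold ContDiff Topology ComplexConjugate

theorem quot_abs {S M G E : Type} [TopologicalSpace S] [TopologicalSpace M] [Group G]
    [MulAction G S] [ContinuousConstSMul G S] [TopologicalSpace E]
    (π : S → M) (hπ : IsLocalHomeomorph π) (horb : ∀ x y, π x = π y ↔ ∃ g : G, g • x = y)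
    (rep : M → S) (hrep : ∀ p, π (rep p) = p) (σ : M → OpenPartialHomeomorph S E)
    (hσ : ∀ p, rep p ∈ (σ p).source) :
    ∃ c : M → OpenPartialHomeomorph M E, (∀ p, p ∈ (c p).source) ∧
      (∀ p, (c p).target ⊆ (σ p).target) ∧ (∀ p, c p p = σ p (rep p)) ∧
      ∀ p q, ∀ y ∈ (c p).target, (c p).symm y ∈ (c q).source → ∃ g : G, ∀ᶠ w in 𝓝 y,
        w ∈ (σ p).target ∧ g • (σ p).symm w ∈ (σ q).source ∧
          c q ((c p).symm w) = σ q (g • (σ p).symm w) := by
  choose e he hee using hπ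
  have hap : ∀ x z, e x z = π z := fun x z => (congrFun (hee x) z).symm
  have hinv : ∀ p, (e (rep p)).symm p = rep p := fun p => by
    have h := (e (rep p)).left_inv (he (rep p))
    rwa [hap, hrep] at h
  have htar : ∀ p, p ∈ (e (rep p)).target := fun p => by
    have h := (e (rep p)).map_source (he (rep p))
    rwa [hap, hrep] at h
  refine ⟨fun p => (e (rep p)).symm.trans (σ p), fun p => ?_, fun p y hy => ?_, fun p => ?_,
    fun p q y hy hq => ?_⟩
  · rw [OpenPartialHomeomorph.trans_source]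
    refine ⟨htar p, ?_⟩
    change (e (rep p)).symm p ∈ (σ p).source
    rw [hinv]
    exact hσ p
  · rw [OpenPartialHomeomorph.trans_target] at hy
    exact hy.1
  · change σ p ((e (rep p)).symm p) = _
    rw [hinv]
  · rw [OpenPartialHomeomorph.trans_target] at hy
    rw [OpenPartialHomeomorph.trans_source] at hq
    have hsy : ∀ w, ((e (rep p)).symm.trans (σ p)).symm w = π ((σ p).symm w) := fun w =>
      hap (rep p) _
    obtain ⟨hq1, hq2⟩ := hq
    rw [hsy] at hq1 hq2
    set x := (σ p).symm y with hx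
    have hq1' : π x ∈ (e (rep q)).target := hq1
    have hq2' : (e (rep q)).symm (π x) ∈ (σ q).source := hq2
    have hx1 : (e (rep q)).symm (π x) ∈ (e (rep q)).source := (e (rep q)).map_target hq1'
    have hx2 : π x = π ((e (rep q)).symm (π x)) := by
      rw [← hap (rep q) ((e (rep q)).symm (π x)), (e (rep q)).right_inv hq1']
    obtain ⟨g, hg⟩ := (horb _ _).1 hx2
    refine ⟨g, ?_⟩
    have hc : ContinuousAt (fun w => g • (σ p).symm w) y :=
      ((σ p).continuousAt_symm hy.1).const_smul g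
    have h1 : ∀ᶠ w in 𝓝 y, g • (σ p).symm w ∈ (e (rep q)).source :=
      hc.eventually ((e (rep q)).open_source.mem_nhds (by change g • x ∈ _; rw [hg]; exact hx1))
    have h2 : ∀ᶠ w in 𝓝 y, g • (σ p).symm w ∈ (σ q).source :=
      hc.eventually ((σ q).open_source.mem_nhds (by change g • x ∈ _; rw [hg]; exact hq2'))
    filter_upwards [h1, h2, (σ p).open_target.mem_nhds hy.1] with w hw1 hw2 hw3
    refine ⟨hw3, hw2, ?_⟩
    rw [hsy]
    change σ q ((e (rep q)).symm (π ((σ p).symm w))) = _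
    have h3 : π ((σ p).symm w) = e (rep q) (g • (σ p).symm w) := by
      rw [hap]
      exact (horb _ _).2 ⟨g, rfl⟩
    rw [h3, (e (rep q)).left_inv hw1]

/-- the complex quadric -/
abbrev Sg : Type := {x : W // x ⬝ᵥ x = 1}

theorem e0_mem : (e0 : W) ⬝ᵥ e0 = 1 := by rw [e0_dot, e00]

theorem continuous_dotself {n : ℕ} : Continuous fun z : Fin n → ℂ => z ⬝ᵥ z :=
  Continuous.dotProduct continuous_id continuous_id

open Classical in
/-- the stereographic chart of the quadric -/
def sigC (hS : St_STEREO) (s : ℂ) (hs : s * s = 1) : OpenPartialHomeomorph Sg (V 7) where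
  toFun x := stC s x.1
  invFun z := if h : 1 + z ⬝ᵥ z ≠ 0 then ⟨stP s z, ((hS s hs).1 z h).1⟩ else ⟨e0, e0_mem⟩
  source := {x | 1 + s * x.1 0 ≠ 0}
  target := {z | 1 + z ⬝ᵥ z ≠ 0}
  map_source' x hx := (((hS s hs).2 x.1 hx).2 x.2).1
  map_target' z hz := by
    have hz' : 1 + z ⬝ᵥ z ≠ 0 := hz
    simp only [dif_pos hz']
    exact ((hS s hs).1 z hz').2.1
  left_inv' x hx := by
    have h := ((hS s hs).2 x.1 hx).2 x.2
    simp only [dif_pos h.1]
    exact Subtype.ext h.2
  right_inv' z hz := by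
    have hz' : 1 + z ⬝ᵥ z ≠ 0 := hz
    simp only [dif_pos hz']
    exact ((hS s hs).1 z hz').2.2.1
  open_source := isOpen_ne_fun (continuous_const.add (continuous_const.mul
    ((continuous_apply 0).comp continuous_subtype_val))) continuous_const
  open_target := isOpen_ne_fun (continuous_const.add continuous_dotself) continuous_const
  continuousOn_toFun x hx :=
    (((hS s hs).2 x.1 hx).1.continuousAt.comp
      continuous_subtype_val.continuousAt).continuousWithinAt
  continuousOn_invFun := by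
    rw [Topology.IsInducing.subtypeVal.continuousOn_iff]
    refine ContinuousOn.congr (f := stP s) (fun z hz =>
      ((hS s hs).1 z hz).2.2.2.1.continuousAt.continuousWithinAt) fun z hz => ?_
    have hz' : 1 + z ⬝ᵥ z ≠ 0 := hz
    simp only [Function.comp_apply, dif_pos hz']

theorem sigC_apply (hS : St_STEREO) (s : ℂ) (hs : s * s = 1) (x : Sg) :
    sigC hS s hs x = stC s x.1 := rfl

theorem sigC_symm (hS : St_STEREO) (s : ℂ) (hs : s * s = 1) (z : V 7) (hz : 1 + z ⬝ᵥ z ≠ 0) :
    ((sigC hS s hs).symm z).1 = stP s z := by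
  have h : (sigC hS s hs).symm z = ⟨stP s z, ((hS s hs).1 z hz).1⟩ := dif_pos hz
  rw [h]

/-- the action of a group of isometries on the quadric -/
@[reducible] def actS (Γ : Subgroup (Matrix (Fin 8) (Fin 8) ℂ)ˣ)
    (h : ∀ γ ∈ Γ, ∀ x y : W, (γ.1 *ᵥ x) ⬝ᵥ (γ.1 *ᵥ y) = x ⬝ᵥ y) : MulAction Γ Sg where
  smul γ x := ⟨γ.1.1 *ᵥ x.1, (h γ.1 γ.2 _ _).trans x.2⟩
  one_smul x := Subtype.ext (one_mulVec x.1)
  mul_smul a b x := Subtype.ext (mulVec_mulVec x.1 a.1.1 b.1.1).symm

theorem blk_QUOT (hS : St_STEREO) (hC : St_CONN) : St_QUOT := by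
  classical
  intro Γ hΓ
  obtain ⟨hiso, -, hfree, hfin, B, hB⟩ := hΓ
  let _ : MulAction Γ Sg := actS Γ hiso
  have hsm : ∀ (γ : Γ) (x : Sg), (γ • x).1 = γ.1.1 *ᵥ x.1 := fun _ _ => rfl
  have hcl : IsClosed {x : W | x ⬝ᵥ x = 1} := isClosed_eq continuous_dotself continuous_const
  have : LocallyCompactSpace Sg := hcl.locallyCompactSpace
  have : ConnectedSpace Sg := isConnected_iff_connectedSpace.1 hC
  have : ContinuousConstSMul Γ Sg := ⟨fun γ =>
    Continuous.subtype_mk (Continuous.matrix_mulVec continuous_const continuous_subtype_val) _⟩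
  have : IsCancelSMul Γ Sg := isCancelSMul_iff_eq_one_of_smul_eq.2 fun γ x hx =>
    Subtype.ext (hfree γ.1 γ.2 x.1 x.2 (congrArg Subtype.val hx))
  have : ProperlyDiscontinuousSMul Γ Sg := ⟨fun {K L} hK hL => by
    obtain ⟨R, hR⟩ := ((hK.union hL).image continuous_subtype_val).isBounded.exists_norm_le
    refine Set.Finite.of_finite_image (f := Subtype.val) ((hfin R).subset ?_)
      Subtype.val_injective.injOn
    rintro _ ⟨γ, ⟨_, ⟨x, hx, rfl⟩, hy⟩, rfl⟩
    exact ⟨γ.2, x.1, x.2, hR _ ⟨x, Or.inl hx, rfl⟩, hR _ ⟨γ • x, Or.inr hy, rfl⟩⟩⟩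
  let M : Type := Quotient (MulAction.orbitRel Γ Sg)
  let π : Sg → M := Quotient.mk _
  have hπ : IsLocalHomeomorph π :=
    isQuotientCoveringMap_quotientMk_of_properlyDiscontinuousSMul.isCoveringMap.isLocalHomeomorph
  have horb : ∀ x y, π x = π y ↔ ∃ g : Γ, g • x = y := fun x y => by
    rw [eq_comm]
    exact Quotient.eq''
  have hπc : Continuous π := continuous_quotient_mk'
  have hπs : Function.Surjective π := Quotient.mk_surjective
  let x0 : Sg := ⟨e0, e0_mem⟩
  let rep : M → Sg := fun p => if p = π x0 then x0 else p.out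
  have hrep : ∀ p, π (rep p) = p := fun p => by
    by_cases h : p = π x0
    · simp only [rep, if_pos h]
      exact h.symm
    · simp only [rep, if_neg h]
      exact Quotient.out_eq p
  let s : M → ℂ := fun p => if (rep p).1 0 = -1 then -1 else 1
  have hs : ∀ p, s p * s p = 1 := fun p => by
    simp only [s]
    split_ifs <;> ring
  have hσ : ∀ p, rep p ∈ (sigC hS (s p) (hs p)).source := fun p => by
    change 1 + s p * (rep p).1 0 ≠ 0
    simp only [s]
    split_ifs with h
    · rw [h]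
      norm_num
    · intro h'
      exact h (by linear_combination h')
  obtain ⟨c, hc1, hc2, hc3, hc4⟩ :=
    quot_abs (G := Γ) π hπ horb rep hrep (fun p => sigC hS (s p) (hs p)) hσ
  let _ : ChartedSpace (V 7) M :=
    { atlas := Set.range c
      chartAt := c
      mem_chart_source := hc1
      chart_mem_atlas := fun p => ⟨p, rfl⟩ }
  have hsmooth : ∀ p q, ContDiffOn ℂ ω ((c p).symm ≫ₕ c q) ((c p).symm ≫ₕ c q).source := by
    intro p q y hy
    rw [OpenPartialHomeomorph.trans_source] at hy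
    obtain ⟨g, hg⟩ := hc4 p q y hy.1 hy.2
    obtain ⟨h1, h2, -⟩ := hg.self_of_nhds
    have h1' : 1 + y ⬝ᵥ y ≠ 0 := h1
    have h2' : 1 + s q * (g.1.1 *ᵥ stP (s p) y) 0 ≠ 0 := by
      rw [← sigC_symm hS (s p) (hs p) y h1']
      exact h2
    have hlin : ContDiff ℂ ω fun x : W => g.1.1 *ᵥ x :=
      (LinearMap.toContinuousLinearMap (Matrix.mulVecLin g.1.1)).contDiff
    have h3 : ContDiffAt ℂ ω (fun w => stC (s q) (g.1.1 *ᵥ stP (s p) w)) y :=
      ContDiffAt.comp (g := stC (s q)) (f := fun w => g.1.1 *ᵥ stP (s p) w) y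
        ((hS (s q) (hs q)).2 _ h2').1
        (hlin.contDiffAt.comp y ((hS (s p) (hs p)).1 y h1').2.2.2.1)
    refine (h3.congr_of_eventuallyEq ?_).contDiffWithinAt
    filter_upwards [hg] with w hw
    rw [← sigC_symm hS (s p) (hs p) w hw.1]
    exact hw.2.2
  refine ⟨M, inferInstance, inferInstance, s, inferInstance, ⟨?_⟩,
    hπs.connectedSpace hπc, ?_, ?_, hs, fun p y hy => hc2 p hy, fun p q y hy hq => ?_,
    π x0, ?_, ?_⟩
  · have hK : IsCompact (Subtype.val ⁻¹' Metric.closedBall (0 : W) B : Set Sg) :=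
      hcl.isClosedEmbedding_subtypeVal.isCompact_preimage (isCompact_closedBall 0 B)
    refine (hK.image hπc).of_isClosed_subset isClosed_univ fun p _ => ?_
    obtain ⟨x, rfl⟩ := hπs p
    obtain ⟨γ, hγ, hb⟩ := hB x.1 x.2
    refine ⟨(⟨γ, hγ⟩ : Γ) • x, mem_closedBall_zero_iff.2 hb, ?_⟩
    exact ((horb _ _).2 ⟨_, rfl⟩).symm
  · refine isManifold_of_contDiffOn _ _ _ ?_
    rintro _ _ ⟨p, rfl⟩ ⟨q, rfl⟩
    simpa using ((hsmooth p q).restrict_scalars ℝ).of_le le_top
  · refine isManifold_of_contDiffOn _ _ _ ?_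
    rintro _ _ ⟨p, rfl⟩ ⟨q, rfl⟩
    simpa using hsmooth p q
  · obtain ⟨g, hg⟩ := hc4 p q y hy hq
    refine ⟨g.1, g.2, ?_⟩
    filter_upwards [hg] with w hw
    change stP (s q) (c q ((c p).symm w)) = _
    rw [hw.2.2, sigC_apply, (((hS (s q) (hs q)).2 _ hw.2.1).2 (g • _ : Sg).2).2, hsm,
      sigC_symm hS (s p) (hs p) w hw.1]
  · have h : rep (π x0) = x0 := if_pos rfl
    have h1 : ¬ ((e0 : W) 0 = -1) := by
      rw [e00]
      norm_num
    simp only [s, h]
    exact if_neg h1
  · have h : rep (π x0) = x0 := if_pos rfl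
    change c (π x0) (π x0) = 0
    rw [hc3, h, sigC_apply]
    funext i
    fin_cases i <;> simp [stC, x0, e0]

end Pool.Agent.Lib.HSC43
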