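import Pool.Agent.Lib.HSC43.BOOST

set_option autoImplicit false

/-! The ring of integers generated by a fourth root of two, inside its Minkowski space. -/

noncomputable section

namespace Pool.Agent.Lib.HSC43

open Matrix Complex
open scoped ComplexConjugate

/-- Minkowski space -/
abbrev A : Type := ℂ × ℝ × ℝ

def th : ℝ := Real.sqrt (Real.sqrt 2)

theorem th_sq : th ^ 2 = Real.sqrt 2 := Real.sq_sqrt (Real.sqrt_nonneg _)

theorem th_four : th ^ 4 = 2 := by
  rw [show th ^ 4 = (th ^ 2) ^ 2 by ring, th_sq, Real.sq_sqrt (by norm_num)]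

theorem one_le_th : 1 ≤ th := Real.one_le_sqrt.2 (Real.one_le_sqrt.2 (by norm_num))

def D : A := (I * th, th, -th)

theorem D_four : D ^ 4 = 2 := by
  have h : (th : ℂ) ^ 4 = 2 := by exact_mod_cast th_four
  refine Prod.ext ?_ (Prod.ext ?_ ?_)
  · change (I * th) ^ 4 = 2
    rw [mul_pow, I_pow_four, one_mul, h]
  · exact th_four
  · change (-th) ^ 4 = 2
    rw [← th_four]; ring

/-- the conjugation -/
def io : A →+* A where
  toFun x := (conj x.1, x.2.2, x.2.1)
  map_one' := by ext <;> simp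
  map_mul' x y := by ext <;> simp
  map_zero' := by ext <;> simp
  map_add' x y := by ext <;> simp

theorem io_D : io D = -D := by
  refine Prod.ext ?_ (Prod.ext rfl ?_)
  · simp [io, D]
  · simp [io, D]

/-- integer points -/
def zev (a : Fin 4 → ℤ) : A := a 0 + a 1 * D + a 2 * D ^ 2 + a 3 * D ^ 3

/-- real points -/
def ev : (Fin 4 → ℝ) →ₗ[ℝ] A where
  toFun a := a 0 • (1 : A) + a 1 • D + a 2 • D ^ 2 + a 3 • D ^ 3
  map_add' a b := by simp only [Pi.add_apply, add_smul]; abel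
  map_smul' c a := by simp only [Pi.smul_apply, smul_eq_mul, mul_smul, smul_add, RingHom.id_apply]

theorem ev_int (a : Fin 4 → ℤ) : ev (fun j => (a j : ℝ)) = zev a := by
  simp only [ev, zev, LinearMap.coe_mk, AddHom.coe_mk, Int.cast_smul_eq_zsmul, zsmul_eq_mul,
    mul_one]

theorem ev_re (a : Fin 4 → ℝ) : (ev a).1.re = a 0 - a 2 * th ^ 2 := by
  simp [ev, D, pow_succ]; ring

theorem ev_im (a : Fin 4 → ℝ) : (ev a).1.im = a 1 * th - a 3 * th ^ 3 := by
  simp [ev, D, pow_succ]; ring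

theorem ev_s (a : Fin 4 → ℝ) : (ev a).2.1 = a 0 + a 1 * th + a 2 * th ^ 2 + a 3 * th ^ 3 := by
  simp [ev, D]

theorem ev_t (a : Fin 4 → ℝ) : (ev a).2.2 = a 0 - a 1 * th + a 2 * th ^ 2 - a 3 * th ^ 3 := by
  simp [ev, D]; ring

theorem abs_le_of_ev {a : Fin 4 → ℝ} {B : ℝ} (h : ‖ev a‖ ≤ B) (j : Fin 4) : |a j| ≤ B := by
  have h1 : ‖(ev a).1‖ ≤ B := (norm_fst_le _).trans h
  have h2 : |(ev a).2.1| ≤ B := ((norm_fst_le _).trans (norm_snd_le _)).trans h
  have h3 : |(ev a).2.2| ≤ B := ((norm_snd_le _).trans (norm_snd_le _)).trans h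
  have h4 := (abs_re_le_norm _).trans h1
  have h5 := (abs_im_le_norm _).trans h1
  rw [ev_re] at h4
  rw [ev_im] at h5
  rw [ev_s] at h2
  rw [ev_t] at h3
  have key : ∀ (x : ℝ) (n : ℕ), |x * th ^ n| ≤ B → |x| ≤ B := fun x n hx => by
    rw [abs_mul, abs_of_nonneg (a := th ^ n) (by have := one_le_th; positivity)] at hx
    nlinarith [one_le_pow₀ (n := n) one_le_th, abs_nonneg x]
  rw [abs_le] at h2 h3 h4 h5
  fin_cases j
  · exact abs_le.2 ⟨by simp; linarith, by simp; linarith⟩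
  · exact key _ 1 (abs_le.2 ⟨by simp; linarith, by simp; linarith⟩)
  · exact key _ 2 (abs_le.2 ⟨by simp; linarith, by simp; linarith⟩)
  · exact key _ 3 (abs_le.2 ⟨by simp; linarith, by simp; linarith⟩)

theorem ev_eq_zero {a : Fin 4 → ℝ} (h : ev a = 0) : a = 0 := by
  funext j
  exact abs_nonpos_iff.1 (abs_le_of_ev (by rw [h, norm_zero]) j)

theorem zev_add (a b : Fin 4 → ℤ) : zev (a + b) = zev a + zev b := by
  simp only [zev, Pi.add_apply, Int.cast_add]; ring

theorem zev_smul (c : ℤ) (a : Fin 4 → ℤ) : zev (c • a) = c * zev a := by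
  simp only [zev, Pi.smul_apply, smul_eq_mul, Int.cast_mul]; ring

/-- the ring of integer points -/
def RR : Subring A where
  carrier := Set.range zev
  mul_mem' := by
    rintro _ _ ⟨a, rfl⟩ ⟨b, rfl⟩
    refine ⟨![a 0 * b 0 + 2 * (a 1 * b 3 + a 2 * b 2 + a 3 * b 1),
      a 0 * b 1 + a 1 * b 0 + 2 * (a 2 * b 3 + a 3 * b 2),
      a 0 * b 2 + a 1 * b 1 + a 2 * b 0 + 2 * (a 3 * b 3),
      a 0 * b 3 + a 1 * b 2 + a 2 * b 1 + a 3 * b 0], ?_⟩
    simp only [zev, Matrix.cons_val_zero, Matrix.cons_val_one, Matrix.cons_val]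
    push_cast
    linear_combination (-(a 1 * b 3 + a 2 * b 2 + a 3 * b 1 : A)
      - (a 2 * b 3 + a 3 * b 2 : A) * D - (a 3 * b 3 : A) * D ^ 2) * D_four
  one_mem' := ⟨![1, 0, 0, 0], by simp [zev]⟩
  add_mem' := by
    rintro _ _ ⟨a, rfl⟩ ⟨b, rfl⟩
    exact ⟨a + b, zev_add a b⟩
  zero_mem' := ⟨0, by simp [zev]⟩
  neg_mem' := by
    rintro _ ⟨a, rfl⟩
    exact ⟨(-1 : ℤ) • a, by rw [zev_smul]; simp⟩

theorem zev_mem (a : Fin 4 → ℤ) : zev a ∈ RR := ⟨a, rfl⟩

theorem D_mem : D ∈ RR := ⟨![0, 1, 0, 0], by simp [zev]⟩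

theorem io_zev (a : Fin 4 → ℤ) : io (zev a) = a 0 - a 1 * D + a 2 * D ^ 2 - a 3 * D ^ 3 := by
  simp only [zev, map_add, map_mul, map_pow, map_intCast, io_D]; ring

theorem io_mem {x : A} (hx : x ∈ RR) : io x ∈ RR := by
  obtain ⟨a, rfl⟩ := hx
  rw [io_zev]
  have := D_mem
  refine sub_mem (add_mem (sub_mem ?_ (mul_mem ?_ this)) (mul_mem ?_ (pow_mem this 2)))
    (mul_mem ?_ (pow_mem this 3)) <;> exact intCast_mem RR _

theorem finite_RR (B : ℝ) : {x : A | x ∈ RR ∧ ‖x‖ ≤ B}.Finite := by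
  obtain ⟨N, hN⟩ := exists_nat_ge B
  refine ((Set.finite_Icc (fun _ : Fin 4 => (-N : ℤ)) (fun _ => (N : ℤ))).image zev).subset ?_
  rintro _ ⟨⟨a, rfl⟩, h⟩
  rw [← ev_int] at h
  have h2 := fun j => abs_le.1 ((abs_le_of_ev h j).trans hN)
  refine ⟨a, ⟨fun j => ?_, fun j => ?_⟩, rfl⟩
  · exact_mod_cast (h2 j).1
  · exact_mod_cast (h2 j).2

/-- the norm form -/
def nn : A →* ℝ where
  toFun x := normSq x.1 * x.2.1 * x.2.2
  map_one' := by simp
  map_mul' x y := by simp only [Prod.fst_mul, Prod.snd_mul, map_mul]; ring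

theorem nn_apply (x : A) : nn x = normSq x.1 * x.2.1 * x.2.2 := rfl

theorem irr {a b : ℤ} (h : (a : ℝ) = b * th ^ 2) : a = 0 ∧ b = 0 := by
  rw [th_sq] at h
  by_cases hb : b = 0
  · subst hb
    simp at h
    exact ⟨h, rfl⟩
  · exact absurd h.symm ((irrational_sqrt_two.intCast_mul hb).ne_int a)

theorem norm_RR {x : A} (hx : x ∈ RR) :
    ∃ n : ℤ, nn x = n ∧ (∃ y ∈ RR, x * y = n) ∧ (x ≠ 0 → n ≠ 0) := by
  obtain ⟨a, rfl⟩ := hx
  set p : ℤ := a 0 ^ 2 + 2 * a 2 ^ 2 - 4 * a 1 * a 3 with hp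
  set q : ℤ := 2 * a 0 * a 2 - a 1 ^ 2 - 2 * a 3 ^ 2 with hq
  have h1 : zev a * io (zev a) = p + q * D ^ 2 := by
    rw [io_zev, hp, hq, zev]
    push_cast
    linear_combination ((a 2 : A) ^ 2 - 2 * a 1 * a 3 - (a 3 : A) ^ 2 * D ^ 2) * D_four
  have h2 : normSq (zev a).1 = p - q * th ^ 2 := by
    have := congrArg (fun y : A => y.1.re) h1
    simp only [Prod.fst_mul, io, RingHom.coe_mk, MonoidHom.coe_mk, OneHom.coe_mk, mul_conj,
      ofReal_re] at this
    rw [this]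
    simp [D, pow_succ]; ring
  have h3 : (zev a).2.1 * (zev a).2.2 = p + q * th ^ 2 := by
    have := congrArg (fun y : A => y.2.1) h1
    simpa [io, D] using this
  refine ⟨p ^ 2 - 2 * q ^ 2, ?_, ⟨io (zev a) * (p - q * D ^ 2), mul_mem (io_mem (zev_mem a))
    (sub_mem (intCast_mem RR _) (mul_mem (intCast_mem RR _) (pow_mem D_mem 2))), ?_⟩, ?_⟩
  · rw [nn_apply, mul_assoc, h2, h3]
    push_cast
    linear_combination (-(q : ℝ) ^ 2) * th_four
  · rw [← mul_assoc, h1]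
    push_cast
    linear_combination (-(q : A) ^ 2) * D_four
  · intro hne h0
    apply hne
    have h4 : ((p : ℝ) - q * th ^ 2) * (p + q * th ^ 2) = 0 := by
      have : ((p ^ 2 - 2 * q ^ 2 : ℤ) : ℝ) = 0 := by rw [h0]; simp
      push_cast at this
      linear_combination this + (-(q : ℝ) ^ 2) * th_four
    have h5 : p = 0 ∧ q = 0 := by
      rcases mul_eq_zero.1 h4 with h | h
      · exact irr (by linarith)
      · have := irr (a := p) (b := -q) (by push_cast; linarith)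
        exact ⟨this.1, by simpa using this.2⟩
    rw [h5.1, h5.2] at h2
    have h6 : (zev a).1 = 0 := normSq_eq_zero.1 (by simpa using h2)
    have h7 := ev_re fun j => (a j : ℝ)
    have h8 := ev_im fun j => (a j : ℝ)
    rw [ev_int, h6] at h7 h8
    have h9 := irr (a := a 0) (b := a 2) (by simp at h7; linarith)
    have h10 := irr (a := a 1) (b := a 3) (by
      have hth : th ≠ 0 := by have := one_le_th; positivity
      apply mul_right_cancel₀ hth
      simp at h8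
      linarith)
    simp [zev, h9.1, h9.2, h10.1, h10.2]

end Pool.Agent.Lib.HSC43
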