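import Pool.Agent.Lib.HSC43.Blue

set_option autoImplicit false

/-! Stereographic charts of the complex quadric and its connectedness. -/

noncomputable section

namespace Pool.Agent.Lib.HSC43

open Matrix Pool.Agent.Lib.MP_40b2af_gt
open scoped Manifold ContDiff Topology ComplexConjugate

theorem stP_zero (s : ℂ) (z : V 7) : stP s z 0 = (1 + z ⬝ᵥ z)⁻¹ * (s * (1 - z ⬝ᵥ z)) := by
  simp [stP]

theorem stP_succ (s : ℂ) (z : V 7) (i : Fin 7) :
    stP s z i.succ = (1 + z ⬝ᵥ z)⁻¹ * (2 * z i) := by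
  simp [stP]

theorem stC_apply (s : ℂ) (x : W) (i : Fin 7) : stC s x i = (1 + s * x 0)⁻¹ * x i.succ := by
  simp [stC, Fin.tail]

theorem dot_succ (x y : W) : x ⬝ᵥ y = x 0 * y 0 + ∑ i : Fin 7, x i.succ * y i.succ := by
  simp only [dotProduct]
  exact Fin.sum_univ_succ (n := 7) (fun i => x i * y i)

theorem stP_dot {s : ℂ} (hs : s * s = 1) {z : V 7} (hz : 1 + z ⬝ᵥ z ≠ 0) :
    stP s z ⬝ᵥ stP s z = 1 := by
  rw [dot_succ, stP_zero]
  simp only [stP_succ]
  have h1 : ∑ i : Fin 7, (1 + z ⬝ᵥ z)⁻¹ * (2 * z i) * ((1 + z ⬝ᵥ z)⁻¹ * (2 * z i))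
      = (1 + z ⬝ᵥ z)⁻¹ * (1 + z ⬝ᵥ z)⁻¹ * 4 * (z ⬝ᵥ z) := by
    conv_rhs => rw [show z ⬝ᵥ z = ∑ i, z i * z i from rfl]
    rw [Finset.mul_sum]
    refine Finset.sum_congr rfl fun i _ => ?_
    rw [show (∑ i, z i * z i) = z ⬝ᵥ z from rfl]
    ring
  rw [h1]
  generalize z ⬝ᵥ z = q at hz ⊢
  field_simp
  linear_combination (1 - q) ^ 2 * hs

theorem one_add_stP {s : ℂ} (hs : s * s = 1) {z : V 7} (hz : 1 + z ⬝ᵥ z ≠ 0) :
    1 + s * stP s z 0 = 2 * (1 + z ⬝ᵥ z)⁻¹ := by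
  rw [stP_zero]
  generalize z ⬝ᵥ z = q at hz ⊢
  field_simp
  linear_combination (1 - q) * hs

theorem stC_stP {s : ℂ} (hs : s * s = 1) {z : V 7} (hz : 1 + z ⬝ᵥ z ≠ 0) :
    stC s (stP s z) = z := by
  funext i
  rw [stC_apply, one_add_stP hs hz, stP_succ]
  generalize z ⬝ᵥ z = q at hz ⊢
  field_simp

theorem contDiff_dotself : ContDiff ℂ ω (fun z : V 7 => z ⬝ᵥ z) := by
  simp only [dotProduct]
  exact ContDiff.sum fun i _ => (contDiff_apply ℂ ℂ i).mul (contDiff_apply ℂ ℂ i)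

theorem contDiffAt_stP (s : ℂ) {z : V 7} (hz : 1 + z ⬝ᵥ z ≠ 0) : ContDiffAt ℂ ω (stP s) z := by
  have hq : ContDiffAt ℂ ω (fun z : V 7 => z ⬝ᵥ z) z := contDiff_dotself.contDiffAt
  have hi : ContDiffAt ℂ ω (fun z : V 7 => (1 + z ⬝ᵥ z)⁻¹) z :=
    (contDiffAt_const.add hq).inv hz
  refine contDiffAt_pi.2 fun i => ?_
  refine Fin.cases (n := 7) ?_ (fun j => ?_) i
  · simp only [stP_zero]
    exact hi.mul (contDiffAt_const.mul (contDiffAt_const.sub hq))
  · simp only [stP_succ]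
    exact hi.mul (contDiffAt_const.mul (contDiff_apply ℂ ℂ j).contDiffAt)

theorem contDiffAt_stC (s : ℂ) {x : W} (hx : 1 + s * x 0 ≠ 0) : ContDiffAt ℂ ω (stC s) x := by
  have hi : ContDiffAt ℂ ω (fun x : W => (1 + s * x 0)⁻¹) x :=
    (contDiffAt_const.add (contDiffAt_const.mul (contDiff_apply ℂ ℂ 0).contDiffAt)).inv hx
  refine contDiffAt_pi.2 fun i => ?_
  simp only [stC_apply]
  exact hi.mul (contDiff_apply ℂ ℂ i.succ).contDiffAt

theorem isOpen_U : IsOpen {z : V 7 | 1 + z ⬝ᵥ z ≠ 0} :=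
  isOpen_ne_fun (continuous_const.add contDiff_dotself.continuous) continuous_const

theorem hasFDerivAt_stP (s : ℂ) {z : V 7} (hz : 1 + z ⬝ᵥ z ≠ 0) :
    HasFDerivAt (stP s) (dP s z) z :=
  ((contDiffAt_stP s hz).differentiableAt (by simp)).hasFDerivAt

theorem dP_injective {s : ℂ} (hs : s * s = 1) {z : V 7} (hz : 1 + z ⬝ᵥ z ≠ 0) :
    Function.Injective (dP s z) := by
  have h1 : 1 + s * stP s z 0 ≠ 0 := by
    rw [one_add_stP hs hz]
    exact mul_ne_zero two_ne_zero (inv_ne_zero hz)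
  have hC := ((contDiffAt_stC s h1).differentiableAt (by simp)).hasFDerivAt
  have hcomp := hC.comp z (hasFDerivAt_stP s hz)
  have hev : (stC s ∘ stP s) =ᶠ[𝓝 z] id := by
    filter_upwards [isOpen_U.mem_nhds hz] with w hw
    exact stC_stP hs hw
  have hid : HasFDerivAt (stC s ∘ stP s) (ContinuousLinearMap.id ℂ (V 7)) z :=
    (hasFDerivAt_id z).congr_of_eventuallyEq hev
  have heq := hcomp.unique hid
  intro u v huv
  have hu := congrArg (fun L : V 7 →L[ℂ] V 7 => L u) heq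
  have hv := congrArg (fun L : V 7 →L[ℂ] V 7 => L v) heq
  simp only [ContinuousLinearMap.comp_apply, ContinuousLinearMap.id_apply] at hu hv
  rw [← hu, ← hv, huv]

theorem dP_dot {s : ℂ} (hs : s * s = 1) {z : V 7} (hz : 1 + z ⬝ᵥ z ≠ 0) (v : V 7) :
    dP s z v ⬝ᵥ stP s z = 0 := by
  have hP := hasFDerivAt_stP s hz
  have hc : ∀ i : Fin 8, HasFDerivAt (fun w => stP s w i)
      ((ContinuousLinearMap.proj i : W →L[ℂ] ℂ).comp (dP s z)) z := fun i =>
    (ContinuousLinearMap.proj i : W →L[ℂ] ℂ).hasFDerivAt.comp z hP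
  have hsum := HasFDerivAt.fun_sum (u := Finset.univ) fun i _ => (hc i).fun_mul (hc i)
  have hev : (fun w => ∑ i : Fin 8, stP s w i * stP s w i) =ᶠ[𝓝 z] fun _ => (1 : ℂ) := by
    filter_upwards [isOpen_U.mem_nhds hz] with w hw
    exact stP_dot hs hw
  have h0 : HasFDerivAt (fun w => ∑ i : Fin 8, stP s w i * stP s w i) (0 : V 7 →L[ℂ] ℂ) z :=
    (hasFDerivAt_const (1 : ℂ) z).congr_of_eventuallyEq hev
  have heq := congrArg (fun L : V 7 →L[ℂ] ℂ => L v) (hsum.unique h0)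
  simp only [_root_.sum_apply, _root_.add_apply,
    _root_.smul_apply, ContinuousLinearMap.comp_apply, ContinuousLinearMap.proj_apply,
    smul_eq_mul, _root_.zero_apply] at heq
  have h2 : (2 : ℂ) * (dP s z v ⬝ᵥ stP s z) = 0 := by
    rw [← heq, dotProduct, Finset.mul_sum]
    exact Finset.sum_congr rfl fun i _ => by ring
  exact (mul_eq_zero.1 h2).resolve_left two_ne_zero

theorem dP_onto {s : ℂ} (hs : s * s = 1) {z : V 7} (hz : 1 + z ⬝ᵥ z ≠ 0) (w : W)
    (hw : w ⬝ᵥ stP s z = 0) : ∃ v : V 7, dP s z v = w := by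
  let φ : W →ₗ[ℂ] ℂ :=
    { toFun := fun w => w ⬝ᵥ stP s z
      map_add' := fun a b => add_dotProduct a b _
      map_smul' := fun c a => smul_dotProduct c a _ }
  have hsurj : LinearMap.range φ = ⊤ := by
    refine LinearMap.range_eq_top.2 fun c => ⟨c • stP s z, ?_⟩
    change (c • stP s z) ⬝ᵥ stP s z = c
    rw [smul_dotProduct, stP_dot hs hz, smul_eq_mul, mul_one]
  have hker : Module.finrank ℂ (LinearMap.ker φ) = 7 := by
    have h := LinearMap.finrank_range_add_finrank_ker φ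
    rw [hsurj, finrank_top, Module.finrank_self, Module.finrank_fin_fun] at h
    omega
  have hran : Module.finrank ℂ (LinearMap.range (dP s z : V 7 →ₗ[ℂ] W)) = 7 := by
    rw [LinearMap.finrank_range_of_inj (dP_injective hs hz), Module.finrank_fin_fun]
  have hle : LinearMap.range (dP s z : V 7 →ₗ[ℂ] W) ≤ LinearMap.ker φ := by
    rintro _ ⟨v, rfl⟩
    exact dP_dot hs hz v
  have heq := Submodule.eq_of_le_of_finrank_eq hle (hran.trans hker.symm)
  have hmem : w ∈ LinearMap.range (dP s z : V 7 →ₗ[ℂ] W) := by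
    rw [heq]
    exact hw
  exact hmem

theorem stC_dot {s : ℂ} (hs : s * s = 1) {x : W} (hx : 1 + s * x 0 ≠ 0) (h1 : x ⬝ᵥ x = 1) :
    stC s x ⬝ᵥ stC s x = (1 - s * x 0) * (1 + s * x 0)⁻¹ := by
  rw [dot_succ] at h1
  have h2 : stC s x ⬝ᵥ stC s x
      = (1 + s * x 0)⁻¹ * (1 + s * x 0)⁻¹ * ∑ i : Fin 7, x i.succ * x i.succ := by
    rw [dotProduct, Finset.mul_sum]
    refine Finset.sum_congr rfl fun i _ => ?_
    rw [stC_apply]
    ring
  have h3 : ∑ i : Fin 7, x i.succ * x i.succ = (1 - s * x 0) * (1 + s * x 0) := by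
    linear_combination h1 + x 0 * x 0 * hs
  rw [h2, h3]
  field_simp

theorem stP_stC {s : ℂ} (hs : s * s = 1) {x : W} (hx : 1 + s * x 0 ≠ 0) (h1 : x ⬝ᵥ x = 1) :
    1 + stC s x ⬝ᵥ stC s x ≠ 0 ∧ stP s (stC s x) = x := by
  have hq := stC_dot hs hx h1
  have h2 : 1 + stC s x ⬝ᵥ stC s x = 2 * (1 + s * x 0)⁻¹ := by
    rw [hq]
    field_simp
    ring
  refine ⟨by rw [h2]; exact mul_ne_zero two_ne_zero (inv_ne_zero hx), ?_⟩
  funext i
  refine Fin.cases (n := 7) ?_ (fun j => ?_) i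
  · rw [stP_zero, h2, hq]
    field_simp
    linear_combination 2 * x 0 * hs
  · rw [stP_succ, h2, stC_apply]
    field_simp

theorem blk_STEREO : St_STEREO := by
  intro s hs
  refine ⟨fun z hz => ⟨stP_dot hs hz, ?_, stC_stP hs hz, contDiffAt_stP s hz,
    dP_injective hs hz, dP_onto hs hz⟩, fun x hx => ⟨contDiffAt_stC s hx, stP_stC hs hx⟩⟩
  rw [one_add_stP hs hz]
  exact mul_ne_zero two_ne_zero (inv_ne_zero hz)

theorem isPreconnected_U : IsPreconnected {z : V 7 | 1 + z ⬝ᵥ z ≠ 0} := by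
  refine isPreconnected_of_forall (0 : V 7) fun z hz => ?_
  have hfin : {t : ℂ | 1 + t * t * (z ⬝ᵥ z) = 0}.Finite := by
    have hne : (1 + Polynomial.X * Polynomial.X * Polynomial.C (z ⬝ᵥ z) : Polynomial ℂ) ≠ 0 := by
      intro h
      have := congrArg (Polynomial.eval 0) h
      simp at this
    refine (Polynomial.finite_setOfPred_isRoot hne).subset fun t ht => ?_
    simpa [Polynomial.IsRoot] using ht
  have hrank : 1 < Module.rank ℝ ℂ := by
    rw [Complex.rank_real_complex]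
    norm_num
  have hpc := (hfin.countable.isPathConnected_compl_of_one_lt_rank hrank).isConnected
  refine ⟨(fun t : ℂ => t • z) '' {t : ℂ | 1 + t * t * (z ⬝ᵥ z) = 0}ᶜ, ?_, ⟨0, ?_, ?_⟩,
    ⟨1, ?_, ?_⟩, hpc.isPreconnected.image _ (continuous_id.smul continuous_const).continuousOn⟩
  · rintro _ ⟨t, ht, rfl⟩
    change 1 + (t • z) ⬝ᵥ (t • z) ≠ 0
    rw [smul_dotProduct, dotProduct_smul, smul_eq_mul, smul_eq_mul, ← mul_assoc]
    exact ht
  · simp
  · simp
  · simpa using hz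
  · simp

theorem blk_CONN : St_CONN := by
  have hcon : ∀ s : ℂ, IsPreconnected (stP s '' {z : V 7 | 1 + z ⬝ᵥ z ≠ 0}) := fun s =>
    isPreconnected_U.image _ fun z hz => (contDiffAt_stP s hz).continuousAt.continuousWithinAt
  have hz1 : (Pi.single 0 1 : V 7) ⬝ᵥ (Pi.single 0 1 : V 7) = 1 := by simp
  have hU1 : 1 + (Pi.single 0 1 : V 7) ⬝ᵥ (Pi.single 0 1 : V 7) ≠ 0 := by
    rw [hz1]
    norm_num
  have hcommon : stP (-1) (Pi.single 0 1) = stP 1 (Pi.single 0 1) := by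
    simp only [stP, hz1, sub_self, mul_zero]
  have hunion : {x : W | x ⬝ᵥ x = 1} = stP 1 '' {z : V 7 | 1 + z ⬝ᵥ z ≠ 0} ∪
      stP (-1) '' {z : V 7 | 1 + z ⬝ᵥ z ≠ 0} := by
    ext x
    constructor
    · intro hx
      by_cases h : 1 + 1 * x 0 = 0
      · have h' : 1 + (-1) * x 0 ≠ 0 := fun h' => by
          have : (2 : ℂ) = 0 := by linear_combination h + h'
          exact two_ne_zero this
        have := stP_stC (s := -1) (by ring) h' hx
        exact Or.inr ⟨_, this.1, this.2⟩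
      · have := stP_stC (s := 1) (by ring) h hx
        exact Or.inl ⟨_, this.1, this.2⟩
    · rintro (⟨z, hz, rfl⟩ | ⟨z, hz, rfl⟩)
      · exact stP_dot (by ring) hz
      · exact stP_dot (by ring) hz
  unfold St_CONN
  rw [hunion]
  refine ⟨⟨stP 1 (Pi.single 0 1), Or.inl ⟨_, hU1, rfl⟩⟩, ?_⟩
  exact IsPreconnected.union (stP 1 (Pi.single 0 1)) ⟨_, hU1, rfl⟩ ⟨_, hU1, hcommon⟩
    (hcon 1) (hcon (-1))

end Pool.Agent.Lib.HSC43
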